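import Pool.Agent.TightS.PairStep
import Pool.Agent.Tight.LeafDefs

/-!
TIGHT, part S, module S1: recursion over the pairs of leaves.
-/

set_option autoImplicit false

namespace HexObs

namespace TS

open Finset

open scoped ENNReal

/-- the bound for the weight of the continuations, position free -/
noncomputable def FJ (D N k j1 j3 : ℕ) (κ : ℝ≥0∞) : ℕ → List Bool → ℝ≥0∞
  | 0 => opA D N LFold (fun _ => 1)
  | j + 1 => fun g => opB D N k j1 j3 LFold (opA D N LFold (FJ D N k j1 j3 κ j)) g +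
      opA D N LFold (opB D N k j1 j3 LFold (FJ D N k j1 j3 κ j)) g +
      κ * opU D N k j1 j3 LFold (opU D N k j1 j3 LFold (FJ D N k j1 j3 κ j)) g

/-- weight of a chain -/
noncomputable def wl (gs : List (List Bool)) : ℝ≥0∞ := (gs.map wE).prod

/-- the chains of 2 j + 1 leaves after g that start with an up leaf at (X, 3 S), end at a height T ≤ N and use only
the block pairs of G -/
def CH (a b N : ℕ) (c : ℤ) (w : ℕ) (G : Finset (ℤ × ℤ)) (j : ℕ) (X S : ℤ) (g : List Bool) : Set (List (List Bool)) :=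
  {gs | gs.length = 2 * j + 1 ∧ List.IsChain LFold (g :: gs) ∧ (∃ T : ℕ, b ≤ T ∧ T ≤ N ∧ LeafOK a b T true S gs) ∧
    ∀ p ∈ arcs c X S gs, (p.1 / w, p.2 / w) ∈ G}

lemma dx_end {n : ℕ} {t : List Bool} (h : t ∈ Brd n) : dx up t t.length = up := (mem_Brd.1 h).2.2.1

lemma lev_end {n : ℕ} {t : List Bool} (h : t ∈ Brd n) : lev t t.length = 3 * n := (mem_Brd.1 h).2.2.2

lemma ht_eq {n : ℕ} {t : List Bool} (h : t ∈ Brd n) : ht t = n := by
  unfold ht
  rw [lev_end h]
  omega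

lemma IU_BU {t : List Bool} (h : t ∈ IU) : t ∈ BU := by
  obtain ⟨r, hr⟩ := h
  exact ⟨r, hr.1⟩

lemma BU_hgt {t : List Bool} (h : t ∈ BU) : t ∈ Brd (hgt t) := by
  obtain ⟨n, hn⟩ := h
  rw [hgt_eq hn]
  exact hn

lemma lastLe_cat {n : ℕ} {s u : List Bool} (hs : s ∈ Brd n) {l : ℤ} (h : 3 * (n : ℤ) ≤ l) :
    lastLe (s ++ u) l = s.length + lastLe u (l - 3 * n) := by
  unfold lastLe
  have hlen : (s ++ u).length = s.length + u.length := List.length_append
  have hcat : ∀ j, lev (s ++ u) (s.length + j) = 3 * n + lev u j := by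
    intro j
    rw [lev_cat (dx_end hs), lev_end hs]
  have hP0 : lev (s ++ u) (s.length) ≤ l := by
    have := hcat 0
    rw [add_zero, lev_zero] at this
    omega
  have hPu : lev u 0 ≤ l - 3 * n := by
    rw [lev_zero]
    omega
  apply le_antisymm
  · have h1 := Nat.findGreatest_spec (P := fun i => lev (s ++ u) i ≤ l) (m := s.length) (n := (s ++ u).length)
      (by omega) hP0
    have h2 := Nat.findGreatest_le (P := fun i => lev (s ++ u) i ≤ l) ((s ++ u).length)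
    have h3 : s.length ≤ Nat.findGreatest (fun i => lev (s ++ u) i ≤ l) (s ++ u).length :=
      Nat.le_findGreatest (by omega) hP0
    obtain ⟨j, hj⟩ : ∃ j, Nat.findGreatest (fun i => lev (s ++ u) i ≤ l) (s ++ u).length = s.length + j :=
      ⟨_, (Nat.add_sub_cancel' h3).symm⟩
    rw [hj] at h1 h2 ⊢
    have h1' : lev (s ++ u) (s.length + j) ≤ l := h1
    rw [hcat] at h1'
    have : j ≤ Nat.findGreatest (fun i => lev u i ≤ l - 3 * n) u.length :=
      Nat.le_findGreatest (by omega) (by omega)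
    omega
  · have h1 := Nat.findGreatest_spec (P := fun i => lev u i ≤ l - 3 * n) (m := 0) (n := u.length) (by omega) hPu
    have h2 := Nat.findGreatest_le (P := fun i => lev u i ≤ l - 3 * n) u.length
    have h1' : lev u (Nat.findGreatest (fun i => lev u i ≤ l - 3 * n) u.length) ≤ l - 3 * n := h1
    apply Nat.le_findGreatest
    · omega
    · show lev (s ++ u) (s.length + _) ≤ l
      rw [hcat]
      omega

lemma firstGe_cat {n : ℕ} {s u : List Bool} (hs : s ∈ Brd n) {l : ℤ} (h : 3 * (n : ℤ) < l)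
    (hu : ∃ j, l - 3 * n ≤ lev u j) :
    firstGe (s ++ u) l = s.length + firstGe u (l - 3 * n) := by
  unfold firstGe
  have hcat : ∀ j, lev (s ++ u) (s.length + j) = 3 * n + lev u j := by
    intro j
    rw [lev_cat (dx_end hs), lev_end hs]
  have hlow : ∀ i, i ≤ s.length → lev (s ++ u) i ≤ 3 * n := by
    intro i hi
    rw [lev_append (by omega)]
    rcases Nat.eq_zero_or_pos i with h0 | h0
    · rw [h0, lev_zero]
      positivity
    · exact ((mem_Brd.1 hs).1 i h0 hi).2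
  have hne : {i | l - 3 * n ≤ lev u i}.Nonempty := hu
  have h1 : l - 3 * n ≤ lev u (sInf {i | l - 3 * n ≤ lev u i}) := Nat.sInf_mem hne
  apply le_antisymm
  · apply Nat.sInf_le
    show l ≤ lev (s ++ u) (s.length + _)
    rw [hcat]
    omega
  · have hne2 : {i | l ≤ lev (s ++ u) i}.Nonempty := by
      obtain ⟨j, hj⟩ := hu
      refine ⟨s.length + j, ?_⟩
      show l ≤ lev (s ++ u) (s.length + j)
      rw [hcat]
      omega
    have h2 : l ≤ lev (s ++ u) (sInf {i | l ≤ lev (s ++ u) i}) := Nat.sInf_mem hne2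
    have h3 : s.length < sInf {i | l ≤ lev (s ++ u) i} := by
      by_contra hc
      have := hlow _ (not_lt.1 hc)
      omega
    obtain ⟨j, hj⟩ : ∃ j, sInf {i | l ≤ lev (s ++ u) i} = s.length + j :=
      ⟨_, (Nat.add_sub_cancel' h3.le).symm⟩
    rw [hj] at h2 ⊢
    rw [hcat] at h2
    have : sInf {i | l - 3 * (n : ℤ) ≤ lev u i} ≤ j := by
      apply Nat.sInf_le
      show l - 3 * n ≤ lev u j
      omega
    omega

theorem shift_last {D k : ℕ} {c S : ℤ} (h : (2 : ℤ) ^ (k + 1) ≤ c - S) (X : ℤ) :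
    Shift D k (fun g => X + lat g (lastLe g (3 * (c - S)))) := by
  refine ⟨1, Or.inl rfl, fun M hM P1 hP1 h' P2 hP2 Q hQ => ?_⟩
  refine ⟨X + latE M + latE P1 +
    lat (P2 ++ Q) (lastLe (P2 ++ Q) (3 * (c - S) - 3 * ((hgt M + hgt P1 + h' : ℕ) : ℤ))), fun V hV hlt _ => ?_⟩
  have hM' := BU_hgt hM
  have hP' := BU_hgt (IU_BU hP1)
  have hs : M ++ (P1 ++ V) ∈ Brd (hgt M + hgt P1 + h') := by
    rw [add_assoc]
    exact Brd_append hM' (Brd_append hP' hV)
  have he : M ++ (P1 ++ (V ++ (P2 ++ Q))) = (M ++ (P1 ++ V)) ++ (P2 ++ Q) := by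
    simp only [List.append_assoc]
  have hlt' : ((hgt M + hgt P1 + h' : ℕ) : ℤ) < 2 ^ (k + 1) := by exact_mod_cast hlt
  simp only
  rw [he, lastLe_cat hs (by omega), lat_cat (dx_end hs), latE_cat (dx_end hM'), latE_cat (dx_end hP')]
  ring

open Classical in
theorem shift_first {D k : ℕ} {c S : ℤ} (h : (2 : ℤ) ^ (k + 1) ≤ S - c) (X : ℤ) :
    Shift D k (fun g => if S - c ≤ ht g then X - lat g (firstGe g (3 * (S - c) - 1)) else X - latE g) := by
  refine ⟨-1, Or.inr rfl, fun M hM P1 hP1 h' P2 hP2 Q hQ => ?_⟩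
  have hM' := BU_hgt hM
  have hP' := BU_hgt (IU_BU hP1)
  have hP2' := BU_hgt (IU_BU hP2)
  have hQ' := BU_hgt hQ
  have hu : P2 ++ Q ∈ Brd (hgt P2 + hgt Q) := Brd_append hP2' hQ'
  obtain ⟨n, hn⟩ : ∃ n : ℕ, n = hgt M + hgt P1 + h' := ⟨_, rfl⟩
  have he : ∀ V : List Bool, M ++ (P1 ++ (V ++ (P2 ++ Q))) = (M ++ (P1 ++ V)) ++ (P2 ++ Q) := by
    intro V
    simp only [List.append_assoc]
  have hs : ∀ V ∈ Brd h', M ++ (P1 ++ V) ∈ Brd n := by
    intro V hV
    rw [hn, add_assoc]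
    exact Brd_append hM' (Brd_append hP' hV)
  have hht : ∀ V ∈ Brd h', ht (M ++ (P1 ++ (V ++ (P2 ++ Q)))) = n + (hgt P2 + hgt Q : ℕ) := by
    intro V hV
    rw [he V, ht_eq (Brd_append (hs V hV) hu)]
    push_cast
    ring
  by_cases hc : S - c ≤ n + (hgt P2 + hgt Q : ℕ)
  · refine ⟨X - latE M - latE P1 - lat (P2 ++ Q) (firstGe (P2 ++ Q) (3 * (S - c) - 1 - 3 * n)),
      fun V hV hlt _ => ?_⟩
    have hlt' : ((hgt M + hgt P1 + h' : ℕ) : ℤ) < 2 ^ (k + 1) := by exact_mod_cast hlt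
    rw [← hn] at hlt'
    simp only
    rw [if_pos (by rw [hht V hV]; exact hc), he V, firstGe_cat (hs V hV) (by omega) ⟨(P2 ++ Q).length, by
      rw [lev_end hu]; omega⟩, lat_cat (dx_end (hs V hV)), latE_cat (dx_end hM'), latE_cat (dx_end hP')]
    ring
  · refine ⟨X - latE M - latE P1 - latE (P2 ++ Q), fun V hV _ _ => ?_⟩
    simp only
    rw [if_neg (by rw [hht V hV]; exact hc), he V, latE_cat (dx_end (hs V hV)), latE_cat (dx_end hM'),
      latE_cat (dx_end hP')]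
    ring

lemma tsum_dec {α β γ : Type} (A : Set α) (B : Set β) (C : β → Set γ) (m : β → γ → α) (F : α → ℝ≥0∞)
    (h : ∀ x : {x // x ∈ A}, ∃ y : (Σ b : {b // b ∈ B}, {c // c ∈ C b.1}), x.1 = m y.1.1 y.2.1) :
    ∑' x : {x // x ∈ A}, F x.1 ≤ ∑' b : {b // b ∈ B}, ∑' c : {c // c ∈ C b.1}, F (m b.1 c.1) := by
  choose f hf using h
  calc ∑' x : {x // x ∈ A}, F x.1 = ∑' x : {x // x ∈ A}, F (m (f x).1.1 (f x).2.1) :=
        tsum_congr fun x => by rw [← hf x]
    _ ≤ ∑' y : (Σ b : {b // b ∈ B}, {c // c ∈ C b.1}), F (m y.1.1 y.2.1) := by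
        refine ENNReal.tsum_comp_le_tsum_of_injective (f := f) ?_ (fun y => F (m y.1.1 y.2.1))
        intro x x' hxx
        apply Subtype.ext
        rw [hf x, hf x', hxx]
    _ = _ := ENNReal.tsum_sigma' _

theorem shift_latE (D k : ℕ) : Shift D k latE := by
  refine ⟨1, Or.inl rfl, fun M hM P1 hP1 h' P2 hP2 Q hQ => ?_⟩
  have hM' := BU_hgt hM
  have hP' := BU_hgt (IU_BU hP1)
  refine ⟨latE M + latE P1 + latE (P2 ++ Q), fun V hV _ _ => ?_⟩
  rw [latE_cat (dx_end hM'), latE_cat (dx_end hP'), latE_cat (dx_end hV)]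
  ring

lemma wl_cons (g : List Bool) (gs : List (List Bool)) : wl (g :: gs) = wE g * wl gs := by
  unfold wl
  rw [List.map_cons, List.prod_cons]

lemma CH_two {a b N : ℕ} {c : ℤ} {w : ℕ} {G : Finset (ℤ × ℤ)} {j : ℕ} {X S : ℤ} {g g' g'' : List Bool}
    {rest : List (List Bool)} (h : g' :: g'' :: rest ∈ CH a b N c w G (j + 1) X S g) :
    ∃ m m' : ℕ, g' ∈ Brd m ∧ g'' ∈ Brd m' ∧ (b : ℤ) ≤ S + m ∧ S + m ≤ N ∧ 1 ≤ S + m - m' ∧ S + m - m' ≤ a ∧
      LFold g g' ∧ LFold g' g'' ∧ ((arc c X S g' g'').1 / w, (arc c X S g' g'').2 / w) ∈ G ∧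
      rest ∈ CH a b N c w G j (X + latE g' + tw g' - latE g'' - tw g'') (S + ht g' - ht g'') g'' := by
  obtain ⟨h1, h2, ⟨T, hbT, hTN, h3⟩, h4⟩ := h
  rw [List.isChain_cons_cons, List.isChain_cons_cons] at h2
  have hlen : rest.length = 2 * j + 1 := by
    simp only [List.length_cons] at h1
    omega
  obtain ⟨g1, rs, hrest⟩ : ∃ g1 rs, rest = g1 :: rs := by
    cases rest with
    | nil => simp at hlen
    | cons g1 rs => exact ⟨g1, rs, rfl⟩
  have h3' : LeafOK a b T true S (g' :: g'' :: g1 :: rs) := by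
    rw [← hrest]
    exact h3
  obtain ⟨m, hm, hbm, hmT, m', hm', h1m, hma, hok⟩ := h3'
  have h4' : ∀ p ∈ arc c X S g' g'' :: arcs c (X + latE g' + tw g' - latE g'' - tw g'') (S + ht g' - ht g'') rest,
      (p.1 / (w : ℤ), p.2 / (w : ℤ)) ∈ G := h4
  refine ⟨m, m', hm, hm', hbm, by omega, h1m, hma, h2.1, h2.2.1, h4' _ (List.mem_cons_self), hlen, h2.2.2,
    ⟨T, hbT, hTN, ?_⟩, ?_⟩
  · rw [ht_eq hm, ht_eq hm', hrest]
    exact hok
  · exact fun p hp => h4' p (List.mem_cons_of_mem _ hp)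

theorem chain_le : ∃ C : ℝ, 0 < C ∧ ∀ (D N k j1 j3 a b : ℕ) (c : ℤ) (w : ℕ) (G : Finset (ℤ × ℤ)), 1 ≤ w →
    a + D ≤ b → (a : ℤ) + 2 ^ (k + 1) ≤ c → c + 2 ^ (k + 1) ≤ b →
    ∀ (j : ℕ) (X S : ℤ) (g : List Bool), 0 ≤ S → S ≤ a →
    ∑' gs : {gs // gs ∈ CH a b N c w G j X S g}, wl gs.1 ≤
      FJ D N k j1 j3 (ENNReal.ofReal (G.card * (C * w / 2 ^ j3) ^ 2)) j g := by
  classical
  obtain ⟨C, hC, hps⟩ := pair_step
  refine ⟨C, hC, fun D N k j1 j3 a b c w G hw hab hac hcb j => ?_⟩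
  have h2k : (0 : ℤ) < 2 ^ (k + 1) := by positivity
  induction j with
  | zero =>
    intro X S g hS0 hSa
    refine (tsum_dec (CH a b N c w G 0 X S g) {g' | g' ∈ BrR D N ∧ LFold g g'}
      (fun _ => ({[]} : Set (List (List Bool)))) List.cons wl ?_).trans ?_
    · rintro ⟨gs, hlen, hch, ⟨T, hbT, hTN, hok⟩, _⟩
      obtain ⟨g', rfl⟩ : ∃ g', gs = [g'] := List.length_eq_one_iff.1 (by omega)
      obtain ⟨m, hm, hmT⟩ : ∃ m : ℕ, g' ∈ Brd m ∧ S + m = T := hok
      rw [List.isChain_cons_cons] at hch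
      exact ⟨⟨⟨g', ⟨m, by omega, by omega, hm⟩, hch.1⟩, ⟨[], rfl⟩⟩, rfl⟩
    · show _ ≤ opA D N LFold (fun _ => 1) g
      unfold opA sB
      refine ENNReal.tsum_le_tsum fun g' => ?_
      have e := tsum_singleton ([] : List (List Bool)) (fun r => wl (g'.1 :: r))
      have e2 : wl (g'.1 :: ([] : List (List Bool))) = wE g'.1 * 1 := by
        rw [wl_cons]
        rfl
      exact le_of_eq (e.trans e2)
  | succ j ih =>
    intro X S g hS0 hSa
    obtain ⟨p, hp⟩ : ∃ p : List Bool → ℤ, p = fun g' => X + lat g' (lastLe g' (3 * (c - S))) := ⟨_, rfl⟩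
    obtain ⟨q, hq⟩ : ∃ q : List Bool → List Bool → ℤ, q = fun g' g'' => if (b : ℤ) ≤ S + ht g' then
      (if (S + ht g') - c ≤ ht g'' then (X + latE g' + tw g') - lat g'' (firstGe g'' (3 * ((S + ht g') - c) - 1))
        else (X + latE g' + tw g') - latE g'') else latE g'' := ⟨_, rfl⟩
    obtain ⟨H, hH⟩ : ∃ H : List Bool → List Bool → ℝ≥0∞, H = fun g' g'' =>
      if 0 ≤ S + ht g' - ht g'' ∧ S + ht g' - ht g'' ≤ a then
        ∑' gs : {gs // gs ∈ CH a b N c w G j (X + latE g' + tw g' - latE g'' - tw g'') (S + ht g' - ht g'') g''},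
          wl gs.1 else 0 := ⟨_, rfl⟩
    have hps' := hps D N k j1 j3 LFold p q (by rw [hp]; exact shift_last (by omega) X) ?_
      (FJ D N k j1 j3 (ENNReal.ofReal (G.card * (C * w / 2 ^ j3) ^ 2)) j) H w G g hw ?_
    · refine le_trans ?_ hps'
      refine (tsum_dec (CH a b N c w G (j + 1) X S g) {g' | g' ∈ BrR D N ∧ LFold g g'}
        (fun g' => {tl | g' :: tl ∈ CH a b N c w G (j + 1) X S g}) List.cons wl ?_).trans ?_
      · rintro ⟨gs, hgs⟩
        obtain ⟨g', g'', rest, rfl⟩ : ∃ g' g'' rest, gs = g' :: g'' :: rest := by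
          have hlen := hgs.1
          rcases gs with _ | ⟨g', _ | ⟨g'', rest⟩⟩
          · simp at hlen
          · simp at hlen
          · exact ⟨g', g'', rest, rfl⟩
        obtain ⟨m, m', hm, hm', hbm, hmT, h1m, hma, hF1, hF2, _, _⟩ := CH_two hgs
        exact ⟨⟨⟨g', ⟨m, by omega, by omega, hm⟩, hF1⟩, ⟨g'' :: rest, hgs⟩⟩, rfl⟩
      · unfold sB
        refine ENNReal.tsum_le_tsum fun g' => ?_
        refine (tsum_dec {tl | g'.1 :: tl ∈ CH a b N c w G (j + 1) X S g} {g'' | g'' ∈ BrR D N ∧ LFold g'.1 g''}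
          (fun g'' => {rest | g'.1 :: g'' :: rest ∈ CH a b N c w G (j + 1) X S g}) List.cons
          (fun tl => wl (g'.1 :: tl)) ?_).trans ?_
        · rintro ⟨tl, htl⟩
          obtain ⟨g'', rest, rfl⟩ : ∃ g'' rest, tl = g'' :: rest := by
            have hlen := htl.1
            rcases tl with _ | ⟨g'', rest⟩
            · simp at hlen
            · exact ⟨g'', rest, rfl⟩
          obtain ⟨m, m', hm, hm', hbm, hmT, h1m, hma, hF1, hF2, _, _⟩ := CH_two htl
          exact ⟨⟨⟨g'', ⟨m', by omega, by omega, hm'⟩, hF2⟩, ⟨rest, htl⟩⟩, rfl⟩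
        · beta_reduce
          rw [← ENNReal.tsum_mul_left]
          refine ENNReal.tsum_le_tsum fun g'' => ?_
          by_cases hne : ∃ rest, g'.1 :: g''.1 :: rest ∈ CH a b N c w G (j + 1) X S g
          · obtain ⟨rest, hrest⟩ := hne
            obtain ⟨m, m', hm, hm', hbm, hmT, h1m, hma, hF1, hF2, hG, _⟩ := CH_two hrest
            have hpq : (p g'.1 / (w : ℤ), q g'.1 g''.1 / (w : ℤ)) ∈ G := by
              rw [hp, hq]
              simp only
              rw [if_pos (by rw [ht_eq hm]; exact hbm), if_pos (by rw [ht_eq hm, ht_eq hm']; omega)]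
              exact hG
            rw [if_pos hpq, hH]
            simp only
            rw [if_pos (by rw [ht_eq hm, ht_eq hm']; omega), ← ENNReal.tsum_mul_left, ← ENNReal.tsum_mul_left]
            have hle := ENNReal.tsum_mono_subtype (fun gs : List (List Bool) => wE g'.1 * (wE g''.1 * wl gs))
              (s := {rest | g'.1 :: g''.1 :: rest ∈ CH a b N c w G (j + 1) X S g})
              (t := CH a b N c w G j (X + latE g'.1 + tw g'.1 - latE g''.1 - tw g''.1) (S + ht g'.1 - ht g''.1) g''.1)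
              (fun r hr => by
                obtain ⟨_, _, _, _, _, _, _, _, _, _, _, h⟩ := CH_two hr
                exact h)
            refine le_trans (le_of_eq ?_) hle
            refine tsum_congr fun r => ?_
            rw [wl_cons, wl_cons]
          · have : IsEmpty {r : List (List Bool) // r ∈ {rest | g'.1 :: g''.1 :: rest ∈ CH a b N c w G (j + 1) X S g}} :=
              ⟨fun r => hne ⟨r.1, r.2⟩⟩
            rw [tsum_empty]
            exact zero_le
    · intro g'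
      rw [hq]
      simp only
      split_ifs with hb
      · exact shift_first (by omega) _
      · exact shift_latE D k
    · intro g' g''
      rw [hH]
      simp only
      split_ifs with h
      · exact ih _ _ _ h.1 h.2
      · exact zero_le

/-- the chains of 2 j + 1 leaves of a bridge -/
def CS (a b N : ℕ) (c : ℤ) (w : ℕ) (G : Finset (ℤ × ℤ)) (j : ℕ) : Set (List (List Bool)) :=
  {gs | gs.length = 2 * j + 1 ∧ List.IsChain LFold gs ∧ (∃ T : ℕ, b ≤ T ∧ T ≤ N ∧ LeafOK a b T true 0 gs) ∧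
    ∀ p ∈ arcs c 0 0 gs, (p.1 / w, p.2 / w) ∈ G}

/-- all chains: the first pair of leaves costs nothing -/
theorem start_le : ∃ C : ℝ, 0 < C ∧ ∀ (D N k j1 j3 a b : ℕ) (c : ℤ) (w : ℕ) (G : Finset (ℤ × ℤ)), 1 ≤ w →
    a + D ≤ b → (a : ℤ) + 2 ^ (k + 1) ≤ c → c + 2 ^ (k + 1) ≤ b → ∀ j : ℕ,
    ∑' gs : {gs // gs ∈ CS a b N c w G (j + 1)}, wl gs.1 ≤
      sB (BrR D N) (fun g => wE g * opA D N LFold
        (FJ D N k j1 j3 (ENNReal.ofReal (G.card * (C * w / 2 ^ j3) ^ 2)) j) g) := by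
  obtain ⟨C, hC, hch⟩ := chain_le
  refine ⟨C, hC, fun D N k j1 j3 a b c w G hw hab hac hcb j => ?_⟩
  have h2k : (0 : ℤ) < 2 ^ (k + 1) := by positivity
  have two : ∀ {g' g'' : List Bool} {rest : List (List Bool)}, g' :: g'' :: rest ∈ CS a b N c w G (j + 1) →
      ∃ m m' : ℕ, g' ∈ Brd m ∧ g'' ∈ Brd m' ∧ (b : ℤ) ≤ m ∧ (m : ℤ) ≤ N ∧ 1 ≤ (m : ℤ) - m' ∧ (m : ℤ) - m' ≤ a ∧
      LFold g' g'' ∧ rest ∈ CH a b N c w G j (0 + latE g' + tw g' - latE g'' - tw g'') (m - m') g'' := by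
    intro g' g'' rest h
    obtain ⟨h1, h2, ⟨T, hbT, hTN, h3⟩, h4⟩ := h
    rw [List.isChain_cons_cons] at h2
    have hlen : rest.length = 2 * j + 1 := by
      simp only [List.length_cons] at h1
      omega
    obtain ⟨g1, rs, hrest⟩ : ∃ g1 rs, rest = g1 :: rs := by
      cases rest with
      | nil => simp at hlen
      | cons g1 rs => exact ⟨g1, rs, rfl⟩
    have h3' : LeafOK a b T true 0 (g' :: g'' :: g1 :: rs) := by
      rw [← hrest]
      exact h3
    obtain ⟨m, hm, hbm, hmT, m', hm', h1m, hma, hok⟩ := h3'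
    have h4' : ∀ p ∈ arc c 0 0 g' g'' :: arcs c (0 + latE g' + tw g' - latE g'' - tw g'') (0 + ht g' - ht g'') rest,
        (p.1 / (w : ℤ), p.2 / (w : ℤ)) ∈ G := h4
    refine ⟨m, m', hm, hm', by omega, by omega, by omega, by omega, h2.1, hlen, h2.2, ⟨T, hbT, hTN, ?_⟩, ?_⟩
    · rw [hrest]
      rw [zero_add] at hok
      exact hok
    · rw [ht_eq hm, ht_eq hm', zero_add (m : ℤ)] at h4'
      exact fun p hp => h4' p (List.mem_cons_of_mem _ hp)
  refine (tsum_dec (CS a b N c w G (j + 1)) (BrR D N)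
    (fun g' => {tl | g' :: tl ∈ CS a b N c w G (j + 1)}) List.cons wl ?_).trans ?_
  · rintro ⟨gs, hgs⟩
    obtain ⟨g', g'', rest, rfl⟩ : ∃ g' g'' rest, gs = g' :: g'' :: rest := by
      have hlen := hgs.1
      rcases gs with _ | ⟨g', _ | ⟨g'', rest⟩⟩
      · simp at hlen
      · simp at hlen
      · exact ⟨g', g'', rest, rfl⟩
    obtain ⟨m, m', hm, hm', hbm, hmT, h1m, hma, hF2, _⟩ := two hgs
    exact ⟨⟨⟨g', ⟨m, by omega, by omega, hm⟩⟩, ⟨g'' :: rest, hgs⟩⟩, rfl⟩
  · unfold sB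
    refine ENNReal.tsum_le_tsum fun g' => ?_
    unfold opA sB
    refine (tsum_dec {tl | g'.1 :: tl ∈ CS a b N c w G (j + 1)} {g'' | g'' ∈ BrR D N ∧ LFold g'.1 g''}
      (fun g'' => {rest | g'.1 :: g'' :: rest ∈ CS a b N c w G (j + 1)}) List.cons
      (fun tl => wl (g'.1 :: tl)) ?_).trans ?_
    · rintro ⟨tl, htl⟩
      obtain ⟨g'', rest, rfl⟩ : ∃ g'' rest, tl = g'' :: rest := by
        have hlen := htl.1
        rcases tl with _ | ⟨g'', rest⟩
        · simp at hlen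
        · exact ⟨g'', rest, rfl⟩
      obtain ⟨m, m', hm, hm', hbm, hmT, h1m, hma, hF2, _⟩ := two htl
      exact ⟨⟨⟨g'', ⟨m', by omega, by omega, hm'⟩, hF2⟩, ⟨rest, htl⟩⟩, rfl⟩
    · beta_reduce
      rw [← ENNReal.tsum_mul_left]
      refine ENNReal.tsum_le_tsum fun g'' => ?_
      by_cases hne : ∃ rest, g'.1 :: g''.1 :: rest ∈ CS a b N c w G (j + 1)
      · obtain ⟨rest, hrest⟩ := hne
        obtain ⟨m, m', hm, hm', hbm, hmT, h1m, hma, hF2, _⟩ := two hrest
        have hle := ENNReal.tsum_mono_subtype (fun gs : List (List Bool) => wE g'.1 * (wE g''.1 * wl gs))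
          (s := {rest | g'.1 :: g''.1 :: rest ∈ CS a b N c w G (j + 1)})
          (t := CH a b N c w G j (0 + latE g'.1 + tw g'.1 - latE g''.1 - tw g''.1) (m - m') g''.1)
          (fun r hr => by
            obtain ⟨m1, m1', h1, h1', _, _, _, _, _, h⟩ := two hr
            rw [Brd_height h1 hm, Brd_height h1' hm'] at h
            exact h)
        have hle2 := hch D N k j1 j3 a b c w G hw hab hac hcb j
          (0 + latE g'.1 + tw g'.1 - latE g''.1 - tw g''.1) (m - m') g''.1 (by omega) hma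
        have e1 : ∑' c_1 : {c_1 // c_1 ∈ {rest | g'.1 :: g''.1 :: rest ∈ CS a b N c w G (j + 1)}},
            wl (g'.1 :: g''.1 :: c_1.1) = ∑' c_1 : {c_1 // c_1 ∈ {rest | g'.1 :: g''.1 :: rest ∈
              CS a b N c w G (j + 1)}}, wE g'.1 * (wE g''.1 * wl c_1.1) :=
          tsum_congr fun r => by rw [wl_cons, wl_cons]
        rw [e1]
        refine hle.trans ?_
        rw [ENNReal.tsum_mul_left, ENNReal.tsum_mul_left]
        gcongr
      · have : IsEmpty {r : List (List Bool) // r ∈ {rest | g'.1 :: g''.1 :: rest ∈ CS a b N c w G (j + 1)}} :=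
          ⟨fun r => hne ⟨r.1, r.2⟩⟩
        rw [tsum_empty]
        exact zero_le

end TS

end HexObs
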