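import Pool.Agent.TightS.Params

/-!
TIGHT, part S: Star lev.
-/

set_option autoImplicit false

namespace HexObs

namespace TS

open Finset

open scoped ENNReal

lemma pow_fin {y c C : ℝ} {n : ℕ} (hy : 1 ≤ y) (hc0 : 0 ≤ c) (hc : c ≤ C) (hn : (n : ℝ) ≤ C) :
    c * y ^ n ≤ C * y ^ C := by
  rw [← Real.rpow_natCast]
  have h1 : y ^ ((n : ℕ) : ℝ) ≤ y ^ C := Real.rpow_le_rpow_of_exponent_le hy hn
  have h0 : 0 ≤ y ^ ((n : ℕ) : ℝ) := Real.rpow_nonneg (by linarith) _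
  calc c * y ^ ((n : ℕ) : ℝ) ≤ C * y ^ ((n : ℕ) : ℝ) := mul_le_mul_of_nonneg_right hc h0
    _ ≤ C * y ^ C := mul_le_mul_of_nonneg_left h1 (hc0.trans hc)

lemma two_pow_le_exp (m : ℕ) : (2 : ℝ) ^ m ≤ Real.exp m := by
  have h : (2 : ℝ) ≤ Real.exp 1 := by
    have := Real.add_one_le_exp (1 : ℝ)
    linarith
  calc (2 : ℝ) ^ m ≤ (Real.exp 1) ^ m := pow_le_pow_left₀ (by norm_num) h m
    _ = Real.exp m := by rw [← Real.exp_nat_mul, mul_one]

lemma le_exp' (x : ℝ) : x ≤ Real.exp x := by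
  have := Real.add_one_le_exp x
  linarith

/-- few alternations or few rows -/
lemma small {K T m : ℕ} {a b : ℤ} (hK : 1 ≤ K) (y z : ℝ) (hKy : (K : ℝ) ≤ y)
    (hz : m ≤ (2 * (K * T) + 1) * (3 * (K * T) + 1) → y + m ≤ z) :
    ∑ T' ∈ range (K * T + 1), gf {g | g ∈ Brd T' ∧ InBox g (K * T) ∧ Tight.Alt (lev g) g.length a b m} ≤
      ENNReal.ofReal (UU T * (Real.exp z * (1 / 2) ^ m)) := by
  by_cases hm : m ≤ (2 * (K * T) + 1) * (3 * (K * T) + 1)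
  · have h1 := triv1 K T hK (fun T' => {g | g ∈ Brd T' ∧ InBox g (K * T) ∧ Tight.Alt (lev g) g.length a b m})
      (fun T' g hg => hg.1)
    refine h1.trans (ENNReal.ofReal_le_ofReal ?_)
    have hU := (Num2Aux.UU_pos T).le
    have h2 : (K : ℝ) ≤ Real.exp y := hKy.trans (le_exp' y)
    have h4 : (K : ℝ) * 2 ^ m ≤ Real.exp z := by
      calc (K : ℝ) * 2 ^ m ≤ Real.exp y * Real.exp m :=
            mul_le_mul h2 (two_pow_le_exp m) (by positivity) (Real.exp_pos _).le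
        _ = Real.exp (y + m) := by rw [Real.exp_add]
        _ ≤ Real.exp z := Real.exp_le_exp.2 (hz hm)
    calc (K : ℝ) * UU T = UU T * ((K * 2 ^ m) * (1 / 2) ^ m) := by
          rw [mul_assoc (K : ℝ), ← mul_pow]
          norm_num
          ring
      _ ≤ _ := by gcongr
  · have h0 : ∀ T' ∈ range (K * T + 1), gf {g | g ∈ Brd T' ∧ InBox g (K * T) ∧ Tight.Alt (lev g) g.length a b m} = 0 := by
      intro T' hT'
      rw [Finset.mem_range] at hT'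
      rw [triv2 (by omega) (by omega)]
      unfold gf
      simp
    rw [Finset.sum_eq_zero h0]
    exact zero_le

theorem star_lev (hN : NormS) : Star lev := by
  obtain ⟨K0, α, C0, hK0, hα, hC0, hmain⟩ := main_bound hN
  obtain ⟨s, p, hs, hpar⟩ := params K0 α C0 hK0 hα hC0
  obtain ⟨L, hL⟩ : ∃ L : ℕ, L = 6 * s + 3 + p := ⟨_, rfl⟩
  obtain ⟨c1, hc1⟩ : ∃ c1 : ℝ, c1 = 16 * 256 ^ (2 * L + 2) + (K0 ^ 4 * 16 * 256 ^ 2) + 3 := ⟨_, rfl⟩
  obtain ⟨c2, hc2⟩ : ∃ c2 : ℝ, c2 = 16 * (100 * 256 ^ L) ^ 2 + 3 := ⟨_, rfl⟩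
  obtain ⟨C, hC⟩ : ∃ C : ℝ, C = c1 + c2 + (2 * L + 2 : ℕ) := ⟨_, rfl⟩
  have hK0' : 0 < K0 := by linarith
  have h1c1 : 3 ≤ c1 := by
    rw [hc1]
    have : (0 : ℝ) ≤ 16 * 256 ^ (2 * L + 2) + (K0 ^ 4 * 16 * 256 ^ 2) := by positivity
    linarith
  have h1c2 : 3 ≤ c2 := by
    rw [hc2]
    have : (0 : ℝ) ≤ 16 * (100 * 256 ^ L) ^ 2 := by positivity
    linarith
  have hn0 : (0 : ℝ) ≤ ((2 * L + 2 : ℕ) : ℝ) := Nat.cast_nonneg _
  have hc1C : c1 ≤ C := by linarith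
  have hc2C : c2 ≤ C := by linarith
  have hnC : ((2 * L + 2 : ℕ) : ℝ) ≤ C := by linarith
  refine ⟨C, by linarith, fun K T m a b hK hT hab => ?_⟩
  obtain ⟨y, hy⟩ : ∃ y : ℝ, y = K + (K * T : ℝ) / ((b : ℝ) - a) := ⟨_, rfl⟩
  rw [← hy]
  have hba : (0 : ℝ) < (b : ℝ) - a := by
    have : (a : ℝ) < b := by exact_mod_cast hab
    linarith
  have hK1 : (1 : ℝ) ≤ K := by exact_mod_cast hK
  have hq0 : 0 ≤ (K * T : ℝ) / ((b : ℝ) - a) := by positivity
  have hKy : (K : ℝ) ≤ y := by linarith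
  have hy1 : 1 ≤ y := by linarith
  have hy0 : 0 < y := by linarith
  have hNy : ((K * T : ℕ) : ℝ) ≤ y * ((b : ℝ) - a) := by
    push_cast
    rw [← div_le_iff₀ hba]
    linarith
  have hyn : y ≤ y ^ (2 * L + 2) := by
    calc y = y ^ 1 := (pow_one y).symm
      _ ≤ y ^ (2 * L + 2) := pow_le_pow_right₀ hy1 (by omega)
  have hyL : 1 ≤ y ^ (L + 1) := one_le_pow₀ hy1
  -- the case of few rows
  have few : ((K * T : ℕ) : ℝ) ≤ 100 * 256 ^ L * y ^ (L + 1) →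
      ∑ T' ∈ range (K * T + 1), gf {g | g ∈ Brd T' ∧ InBox g (K * T) ∧ Tight.Alt (lev g) g.length a b m} ≤
      ENNReal.ofReal (UU T * (Real.exp (C * y ^ C) * (1 / 2) ^ m)) := by
    intro hle
    refine small hK y _ hKy fun hm => ?_
    refine le_trans ?_ (pow_fin (n := 2 * L + 2) hy1 (by linarith) hc2C hnC)
    obtain ⟨N, hNN⟩ : ∃ N : ℝ, N = ((K * T : ℕ) : ℝ) := ⟨_, rfl⟩
    have hm' : (m : ℝ) ≤ (2 * N + 1) * (3 * N + 1) := by
      rw [hNN]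
      exact_mod_cast hm
    rw [← hNN] at hle
    have hN0 : 0 ≤ N := by
      rw [hNN]
      positivity
    obtain ⟨d, hd⟩ : ∃ d : ℝ, d = 100 * 256 ^ L * y ^ (L + 1) := ⟨_, rfl⟩
    have hd1 : 1 ≤ d := by
      rw [hd]
      have h256 : (1 : ℝ) ≤ 256 ^ L := one_le_pow₀ (by norm_num)
      nlinarith
    rw [← hd] at hle
    have h5 : (m : ℝ) ≤ 16 * d ^ 2 := by
      refine hm'.trans ?_
      nlinarith
    have h6 : 16 * d ^ 2 = 16 * (100 * 256 ^ L) ^ 2 * y ^ (2 * L + 2) := by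
      rw [hd, mul_pow (100 * 256 ^ L) (y ^ (L + 1)), ← pow_mul, show (L + 1) * 2 = 2 * L + 2 by ring]
      ring
    rw [h6] at h5
    rw [hc2]
    nlinarith
  by_cases hm2 : m ≤ 2
  · refine small hK y _ hKy fun _ => ?_
    refine le_trans ?_ (pow_fin (n := 2 * L + 2) hy1 (by linarith) hc2C hnC)
    have : (m : ℝ) ≤ 2 := by exact_mod_cast hm2
    nlinarith
  have hm3 : 3 ≤ m := by omega
  by_cases ha : a < 0
  · have h0 : ∀ T' ∈ range (K * T + 1), gf {g | g ∈ Brd T' ∧ InBox g (K * T) ∧ Tight.Alt (lev g) g.length a b m} = 0 := by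
      intro T' _
      have : {g | g ∈ Brd T' ∧ InBox g (K * T) ∧ Tight.Alt (lev g) g.length a b m} = ∅ := by
        rw [Set.eq_empty_iff_forall_notMem]
        rintro g ⟨h1, _, i, h3, h4, h5⟩
        have h6 := h5 0 (Nat.zero_le _)
        rw [if_pos (by decide)] at h6
        have h7 : 0 ≤ lev g (i 0) := by
          rcases Nat.eq_zero_or_pos (i 0) with h0 | h0
          · rw [h0, lev_zero]
          · have hmono : ∀ k, k ≤ m → i 0 ≤ i k := by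
              intro k
              induction k with
              | zero => intro _; exact le_rfl
              | succ k ih =>
                intro hk'
                have := ih (by omega)
                have := h3 k (by omega)
                omega
            have := ((mem_Brd.1 h1).1 _ h0 ((hmono m le_rfl).trans h4)).1
            linarith
        linarith
      rw [this]
      unfold gf
      simp
    rw [Finset.sum_eq_zero h0]
    exact zero_le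
  obtain ⟨a', rfl⟩ : ∃ a' : ℕ, a = a' := ⟨a.toNat, by omega⟩
  obtain ⟨b', rfl⟩ : ∃ b' : ℕ, b = b' := ⟨b.toNat, by omega⟩
  obtain ⟨A, hA⟩ : ∃ A : ℕ, A = (a' + 2) / 3 := ⟨_, rfl⟩
  obtain ⟨B, hB⟩ : ∃ B : ℕ, B = b' / 3 := ⟨_, rfl⟩
  have hab' : a' < b' := by exact_mod_cast hab
  obtain ⟨r, hr⟩ : ∃ r : ℕ, b' = a' + r := ⟨b' - a', by omega⟩
  have hbar : (((b' : ℕ) : ℤ) : ℝ) - (((a' : ℕ) : ℤ) : ℝ) = r := by
    rw [hr]
    push_cast
    ring
  rw [hbar] at hNy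
  by_cases hbig : A + 16 ≤ B
  swap
  · apply few
    have hr50 : r ≤ 100 := by omega
    have hr50' : (r : ℝ) ≤ 100 := by exact_mod_cast hr50
    refine hNy.trans ?_
    have h1 : (1 : ℝ) ≤ 256 ^ L := one_le_pow₀ (by norm_num)
    have h2 : y ≤ y ^ (L + 1) := by
      calc y = y ^ 1 := (pow_one y).symm
        _ ≤ y ^ (L + 1) := pow_le_pow_right₀ hy1 (by omega)
    calc y * r ≤ y * 100 := by gcongr
      _ ≤ 100 * 256 ^ L * y ^ (L + 1) := by
        have h3 : 100 * 1 * y ≤ 100 * 256 ^ L * y ^ (L + 1) := by gcongr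
        linarith
  obtain ⟨D, hD⟩ : ∃ D : ℕ, B = A + D := ⟨B - A, by omega⟩
  obtain ⟨k, hk⟩ : ∃ k : ℕ, k = Nat.log 2 (D / 16) := ⟨_, rfl⟩
  have hD16 : D / 16 ≠ 0 := by omega
  have hk1 : 2 ^ k ≤ D / 16 := by
    rw [hk]
    exact Nat.pow_log_le_self 2 hD16
  have hk2 : D / 16 < 2 ^ (k + 1) := by
    rw [hk]
    exact Nat.lt_pow_succ_log_self (by norm_num) _
  have h2k1 : 2 ^ (k + 1) = 2 * 2 ^ k := by ring
  have h2k4 : 2 ^ (k + 4) = 16 * 2 ^ k := by ring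
  have h2k : 1 ≤ 2 ^ k := Nat.one_le_two_pow
  have hr100 : r ≤ 100 * 2 ^ k := by omega
  have hr100' : (r : ℝ) ≤ 100 * 2 ^ k := by exact_mod_cast hr100
  obtain ⟨N, hNN⟩ : ∃ N : ℕ, N = K * T := ⟨_, rfl⟩
  rw [← hNN] at hNy
  have h2k0 : (0 : ℝ) < 2 ^ k := by positivity
  have hN100 : (N : ℝ) ≤ 100 * y * 2 ^ k := by
    refine hNy.trans ?_
    calc y * r ≤ y * (100 * 2 ^ k) := by gcongr
      _ = _ := by ring
  obtain ⟨e, he⟩ : ∃ e : ℕ, e = Nat.log 2 (N / 2 ^ k + 1) + 1 := ⟨_, rfl⟩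
  have he1 : N / 2 ^ k + 1 < 2 ^ e := by
    rw [he]
    exact Nat.lt_pow_succ_log_self (by norm_num) _
  have he2 : 2 ^ e ≤ 2 * (N / 2 ^ k + 1) := by
    rw [he, pow_succ, mul_comm]
    exact Nat.mul_le_mul_left 2 (Nat.pow_log_le_self 2 (Nat.succ_ne_zero _))
  obtain ⟨R, hR⟩ : ∃ R : ℝ, R = ((N / 2 ^ k : ℕ) : ℝ) + 1 := ⟨_, rfl⟩
  have hR1 : 1 ≤ R := by
    rw [hR]
    have : (0 : ℝ) ≤ ((N / 2 ^ k : ℕ) : ℝ) := Nat.cast_nonneg _
    linarith
  have hRe : R ≤ 2 ^ e := by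
    rw [hR]
    exact_mod_cast he1.le
  have heR : (2 : ℝ) ^ e ≤ 2 * R := by
    rw [hR]
    exact_mod_cast he2
  have hR101 : R ≤ 101 * y := by
    have h1 : ((N / 2 ^ k : ℕ) : ℝ) ≤ 100 * y := by
      refine Nat.cast_div_le.trans ?_
      push_cast
      rw [div_le_iff₀ h2k0]
      exact hN100
    rw [hR]
    linarith
  have he256 : (2 : ℝ) ^ e ≤ 256 * y := by linarith
  by_cases hLe : L * e ≤ k
  swap
  · apply few
    rw [← hNN]
    have h1 : (2 : ℝ) ^ k ≤ (256 * y) ^ L := by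
      calc (2 : ℝ) ^ k ≤ 2 ^ (e * L) := pow_le_pow_right₀ (by norm_num) (by rw [mul_comm]; omega)
        _ = (2 ^ e) ^ L := pow_mul _ _ _
        _ ≤ _ := pow_le_pow_left₀ (by positivity) he256 L
    refine hN100.trans ?_
    calc 100 * y * 2 ^ k ≤ 100 * y * (256 * y) ^ L := by gcongr
      _ = _ := by rw [mul_pow, pow_succ]; ring
  obtain ⟨j4, hj4⟩ : ∃ j4 : ℕ, k = j4 + (6 * s + 3 + p) * e := ⟨k - L * e, by rw [← hL]; exact (Nat.sub_add_cancel hLe).symm⟩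
  have he0 : 1 ≤ e := by omega
  have hse : s * 1 ≤ s * e := Nat.mul_le_mul_left s he0
  obtain ⟨w, hw⟩ : ∃ w : ℕ, w = 2 ^ j4 := ⟨_, rfl⟩
  have hw1 : 1 ≤ w := by
    rw [hw]
    exact Nat.one_le_two_pow
  have hUU : UU N ≤ R * UU (2 ^ k) := by
    have h1 : N ≤ (N / 2 ^ k + 1) * 2 ^ k := by
      have := Nat.lt_div_mul_add (a := N) (b := 2 ^ k) (by positivity)
      rw [add_mul, one_mul]
      omega
    have h2 := UU_mul_le (N / 2 ^ k) (2 ^ k)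
    rw [hR]
    exact (UU_mono h1).trans h2
  have hNRk : (N : ℝ) ≤ R * 2 ^ k := by
    have h1 : N ≤ (N / 2 ^ k + 1) * 2 ^ k := by
      have := Nat.lt_div_mul_add (a := N) (b := 2 ^ k) (by positivity)
      rw [add_mul, one_mul]
      omega
    rw [hR]
    exact_mod_cast h1
  have hpar' := hpar N j4 e R hR1 he0 hRe (by rw [← hj4]; exact hNRk)
  rw [← hj4] at hpar'
  obtain ⟨M, hM⟩ : ∃ M : ℝ, M = 2 ^ ((2 * (N / w) + 2) ^ 2) * (K0 ^ 4 * R ^ 2 * UU N) := ⟨_, rfl⟩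
  have hUN := (Num2Aux.UU_pos N).le
  have hM0 : 0 ≤ M := by
    rw [hM]
    positivity
  have hgeo : ∀ j, ∑ T' ∈ range (K * T + 1), gf (EX A B (K * T) (j + 1) T') ≤ ENNReal.ofReal (M * (1 / 4) ^ j) := by
    intro j
    rw [← hNN]
    refine (hmain N A B N w k (j4 + (5 * s + 3 + p) * e) (j4 + (4 * s + 3 + p) * e) j R hw1 hR1 (by omega) hUU ?_ ?_).trans ?_
    · rw [hj4]
      have : (6 * s + 3 + p) * e = (5 * s + 3 + p) * e + s * e := by ring
      omega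
    · apply Nat.add_le_add_left
      apply Nat.mul_le_mul_right
      omega
    · apply ENNReal.ofReal_le_ofReal
      rw [← hM]
      apply mul_le_mul_of_nonneg_left _ hM0
      rw [hw]
      apply pow_le_pow_left₀ _ hpar'
      have hUp : ∀ q, 0 < UU q := Num2Aux.UU_pos
      have u1 := hUp (2 ^ (j4 + (4 * s + 3 + p) * e))
      have u2 := hUp (2 ^ (j4 + (5 * s + 3 + p) * e))
      have u3 := hUp (2 ^ k)
      positivity
  refine (sum_alt hm3 (by omega) (by omega) (by omega : A < B) M hM0 hgeo).trans ?_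
  apply ENNReal.ofReal_le_ofReal
  have hw0 : (0 : ℝ) < (2 : ℝ) ^ j4 := by positivity
  have hNw : ((N / w : ℕ) : ℝ) ≤ (256 * y) ^ (L + 1) := by
    refine Nat.cast_div_le.trans ?_
    rw [hw]
    push_cast
    rw [div_le_iff₀ hw0]
    calc (N : ℝ) ≤ R * 2 ^ k := hNRk
      _ ≤ 2 ^ e * 2 ^ k := by gcongr
      _ = (2 ^ e) ^ (L + 1) * 2 ^ j4 := by
        rw [hj4, ← hL, pow_add, pow_succ, ← pow_mul, mul_comm e L]
        ring
      _ ≤ (256 * y) ^ (L + 1) * 2 ^ j4 := by gcongr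
  have hexp1 : (((2 * (N / w) + 2) ^ 2 : ℕ) : ℝ) ≤ 16 * 256 ^ (2 * L + 2) * y ^ (2 * L + 2) := by
    push_cast
    obtain ⟨d, hd⟩ : ∃ d : ℝ, d = (256 * y) ^ (L + 1) := ⟨_, rfl⟩
    have hd1 : 1 ≤ d := by
      rw [hd]
      exact one_le_pow₀ (by linarith)
    rw [← hd] at hNw
    have h0 : (0 : ℝ) ≤ ((N / w : ℕ) : ℝ) := Nat.cast_nonneg _
    calc (2 * ((N / w : ℕ) : ℝ) + 2) ^ 2 ≤ (4 * d) ^ 2 := by
          apply pow_le_pow_left₀ (by positivity)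
          linarith
      _ = _ := by
        rw [hd, mul_pow, ← pow_mul, mul_pow, show (L + 1) * 2 = 2 * L + 2 by ring]
        ring
  have hUNT : UU N ≤ y * UU T := by
    obtain ⟨K', rfl⟩ : ∃ K', K = K' + 1 := ⟨K - 1, by omega⟩
    have h1 := UU_mul_le K' T
    rw [← hNN] at h1
    have h2 : ((K' : ℝ) + 1) ≤ y := by
      push_cast at hKy
      exact hKy
    exact h1.trans (mul_le_mul_of_nonneg_right h2 (Num2Aux.UU_pos T).le)
  have hUT := (Num2Aux.UU_pos T).le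
  have hbig2 : M * 16 ≤ UU T * Real.exp (C * y ^ C) := by
    have e1 : (2 : ℝ) ^ ((2 * (N / w) + 2) ^ 2) ≤ Real.exp (16 * 256 ^ (2 * L + 2) * y ^ (2 * L + 2)) :=
      (two_pow_le_exp _).trans (Real.exp_le_exp.2 hexp1)
    have e2 : K0 ^ 4 * 16 * R ^ 2 ≤ K0 ^ 4 * 16 * 256 ^ 2 * y ^ 2 := by
      have : R ^ 2 ≤ (256 * y) ^ 2 := pow_le_pow_left₀ (by linarith) (by linarith) 2
      calc K0 ^ 4 * 16 * R ^ 2 ≤ K0 ^ 4 * 16 * (256 * y) ^ 2 := by gcongr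
        _ = _ := by ring
    have e3 : K0 ^ 4 * 16 * 256 ^ 2 * y ^ 2 ≤ Real.exp (K0 ^ 4 * 16 * 256 ^ 2 + 2 * y) := by
      have h1 := le_exp' (K0 ^ 4 * 16 * 256 ^ 2)
      have h2 : y ^ 2 ≤ Real.exp (2 * y) := by
        calc y ^ 2 ≤ (Real.exp y) ^ 2 := pow_le_pow_left₀ hy0.le (le_exp' y) 2
          _ = _ := by rw [← Real.exp_nat_mul]; norm_num
      rw [Real.exp_add]
      exact mul_le_mul h1 h2 (by positivity) (Real.exp_pos _).le
    have e4 : Real.exp (16 * 256 ^ (2 * L + 2) * y ^ (2 * L + 2)) * (Real.exp (K0 ^ 4 * 16 * 256 ^ 2 + 2 * y) * Real.exp y) ≤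
        Real.exp (C * y ^ C) := by
      rw [← Real.exp_add, ← Real.exp_add]
      apply Real.exp_le_exp.2
      refine le_trans ?_ (pow_fin (n := 2 * L + 2) hy1 (by linarith) hc1C hnC)
      rw [hc1]
      have h3 : 1 ≤ y ^ (2 * L + 2) := one_le_pow₀ hy1
      have h4 : K0 ^ 4 * 16 * 256 ^ 2 * 1 ≤ K0 ^ 4 * 16 * 256 ^ 2 * y ^ (2 * L + 2) := by gcongr
      linarith
    calc M * 16 = 2 ^ ((2 * (N / w) + 2) ^ 2) * ((K0 ^ 4 * 16 * R ^ 2) * UU N) := by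
          rw [hM]
          ring
      _ ≤ Real.exp (16 * 256 ^ (2 * L + 2) * y ^ (2 * L + 2)) * (Real.exp (K0 ^ 4 * 16 * 256 ^ 2 + 2 * y) * (Real.exp y * UU T)) := by
          have e5 : UU N ≤ Real.exp y * UU T := hUNT.trans (mul_le_mul_of_nonneg_right (le_exp' y) hUT)
          have e6 : K0 ^ 4 * 16 * R ^ 2 ≤ Real.exp (K0 ^ 4 * 16 * 256 ^ 2 + 2 * y) := e2.trans e3
          exact mul_le_mul e1 (mul_le_mul e6 e5 hUN (Real.exp_pos _).le) (by positivity) (Real.exp_pos _).le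
      _ = UU T * (Real.exp (16 * 256 ^ (2 * L + 2) * y ^ (2 * L + 2)) * (Real.exp (K0 ^ 4 * 16 * 256 ^ 2 + 2 * y) * Real.exp y)) := by
          ring
      _ ≤ _ := mul_le_mul_of_nonneg_left e4 hUT
  calc M * (16 * (1 / 2) ^ m) = M * 16 * (1 / 2) ^ m := by ring
    _ ≤ UU T * Real.exp (C * y ^ C) * (1 / 2) ^ m := by gcongr
    _ = _ := by ring

end TS

end HexObs
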