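import Pool.Agent.TightS.SBasic

/-!
TIGHT, part S, module S1: one pair of leaves. The arc over the slab between them costs a factor.
-/

set_option autoImplicit false

namespace HexObs

namespace TS

open Finset

open scoped ENNReal

lemma sB_mul_right (A : Set (List Bool)) (c : ℝ≥0∞) (F : List Bool → ℝ≥0∞) :
    sB A (fun t => F t * c) = sB A F * c := by
  unfold sB
  exact ENNReal.tsum_mul_right

lemma sB_finset {ι : Type} (A : Set (List Bool)) (I : Finset ι) (F : List Bool → ι → ℝ≥0∞) :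
    sB A (fun s => ∑ i ∈ I, F s i) = ∑ i ∈ I, sB A (fun s => F s i) := by
  unfold sB
  exact Summable.tsum_finsetSum fun i _ => ENNReal.summable

/-- weight of the bridges of height h that end in a block of w columns -/
lemma gf_block : ∃ C : ℝ, 0 < C ∧ ∀ (h j3 : ℕ) (σ x B : ℤ) (w : ℕ), 2 ^ j3 ≤ h → 1 ≤ w → (σ = 1 ∨ σ = -1) →
    gf {V | V ∈ Brd h ∧ (x + σ * latE V) / w = B} ≤ ENNReal.ofReal (C * w / 2 ^ j3) * gf (Brd h) := by
  obtain ⟨C, hC, hend⟩ := anti_end
  refine ⟨C, hC, fun h j3 σ x B w hh hw hσ => ?_⟩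
  have hh1 : 1 ≤ h := le_trans Nat.one_le_two_pow hh
  have hh0 : (0 : ℝ) < h := by exact_mod_cast hh1
  have h2 : (0 : ℝ) < 2 ^ j3 := by positivity
  have h3 : (2 : ℝ) ^ j3 ≤ h := by exact_mod_cast hh
  obtain ⟨A, hA⟩ : ∃ A : Finset ℤ, A = (Finset.range w).image (fun i : ℕ => σ * (B * w + i - x)) := ⟨_, rfl⟩
  have hcard : A.card ≤ w := by
    rw [hA]
    exact Finset.card_image_le.trans (le_of_eq (Finset.card_range w))
  have hσ2 : σ * σ = 1 := by
    rcases hσ with h | h <;> rw [h] <;> norm_num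
  have key := NearAux.gf_le_card {V | V ∈ Brd h ∧ (x + σ * latE V) / w = B} A latE ?_
    (ENNReal.ofReal (C * (uu h / h))) ?_
  · refine key.trans ?_
    have e1 : gf (Brd h) = ENNReal.ofReal (uu h) := by
      rw [gf_Brd]
      unfold uu
      rw [ENNReal.ofReal_toReal (BT_ne_top hh1)]
    rw [e1, ← ENNReal.ofReal_mul (by positivity)]
    calc (A.card : ℝ≥0∞) * ENNReal.ofReal (C * (uu h / h)) ≤ (w : ℝ≥0∞) * ENNReal.ofReal (C * (uu h / h)) := by
          gcongr
      _ = ENNReal.ofReal (w * (C * (uu h / h))) := by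
          rw [ENNReal.ofReal_mul (Nat.cast_nonneg w) (q := C * (uu h / h)), ENNReal.ofReal_natCast]
      _ ≤ _ := by
          apply ENNReal.ofReal_le_ofReal
          have h4 := (uu_pos h).le
          have h5 : uu h / h ≤ uu h / 2 ^ j3 := div_le_div_of_nonneg_left h4 h2 h3
          calc (w : ℝ) * (C * (uu h / h)) ≤ w * (C * (uu h / 2 ^ j3)) := by gcongr
            _ = C * w / 2 ^ j3 * uu h := by ring
  · rintro V ⟨_, hV⟩
    rw [hA, Finset.mem_image]
    have hw0 : (0 : ℤ) < w := by exact_mod_cast hw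
    have h4 := Int.emod_add_mul_ediv (x + σ * latE V) w
    have h5 := Int.emod_nonneg (x + σ * latE V) hw0.ne'
    have h6 := Int.emod_lt_of_pos (x + σ * latE V) hw0
    rw [hV] at h4
    refine ⟨((x + σ * latE V) % w).toNat, Finset.mem_range.2 (by omega), ?_⟩
    rw [Int.toNat_of_nonneg h5]
    have h7 : B * w + (x + σ * latE V) % w - x = σ * latE V := by linarith
    rw [h7, ← mul_assoc, hσ2, one_mul]
  · intro y
    refine (gf_mono ?_).trans (hend h hh1 y)
    rintro V ⟨hV, hy⟩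
    exact ⟨hV.1, hy⟩

open Classical in
/-- DENSITY LEMMA: a position functional falls into a block of w columns with probability at most C w / 2^j3 -/
theorem density : ∃ C : ℝ, 0 < C ∧ ∀ (D N k j1 j3 : ℕ) (R : List Bool → List Bool → Prop) (f : List Bool → ℤ),
    Shift D k f → ∀ (F : List Bool → ℝ≥0∞) (w : ℕ) (B : ℤ) (g : List Bool), 1 ≤ w →
    sB {g' | g' ∈ BrR D N ∧ R g g'} (fun g' => wE g' * (gam k j1 j3 g' * (if f g' / w = B then F g' else 0))) ≤
      ENNReal.ofReal (C * w / 2 ^ j3) * opU D N k j1 j3 R F g := by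
  obtain ⟨C, hC, hblk⟩ := gf_block
  refine ⟨C, hC, fun D N k j1 j3 R f hf F w B g hw => ?_⟩
  obtain ⟨σ, hσ, hshift⟩ := hf
  obtain ⟨S, hS⟩ : ∃ S : Set (List Bool), S = {g' | g' ∈ BrR D N ∧ R g g'} := ⟨_, rfl⟩
  obtain ⟨φ, hφ⟩ : ∃ φ : List Bool → ℝ≥0∞, φ = fun g' => if f g' / w = B then F g' else 0 := ⟨_, rfl⟩
  obtain ⟨m, hm⟩ : ∃ m : List Bool → List Bool → List Bool → List Bool → ℝ≥0∞, m = fun M P1 V P2 =>
    mu j1 (hgt M) (hgt P1) * mu k (hgt M + hgt P1 + hgt V) (hgt P2) := ⟨_, rfl⟩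
  have e1 : ∀ g', wE g' * (gam k j1 j3 g' * φ g') =
      sB BU fun M => sB IU fun P1 => sB BU fun V => sB IU fun P2 => sB BU fun Q =>
        if M ++ (P1 ++ (V ++ (P2 ++ Q))) = g' then (if 2 ^ j3 ≤ hgt V then
          wE (M ++ (P1 ++ (V ++ (P2 ++ Q)))) * (m M P1 V P2 * φ (M ++ (P1 ++ (V ++ (P2 ++ Q))))) else 0) else 0 := by
    intro g'
    have : wE g' * (gam k j1 j3 g' * φ g') = (wE g' * φ g') * gam k j1 j3 g' := by ring
    rw [this]
    unfold gam
    rw [← sB_mul]
    refine sB_congr fun M _ => ?_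
    rw [← sB_mul]
    refine sB_congr fun P1 _ => ?_
    rw [← sB_mul]
    refine sB_congr fun V _ => ?_
    rw [← sB_mul]
    refine sB_congr fun P2 _ => ?_
    rw [← sB_mul]
    refine sB_congr fun Q _ => ?_
    by_cases h1 : M ++ (P1 ++ (V ++ (P2 ++ Q))) = g'
    · by_cases h2 : 2 ^ j3 ≤ hgt V
      · rw [if_pos ⟨h1, h2⟩, if_pos h1, if_pos h2, h1, hm]
        ring
      · rw [if_neg (fun h => h2 h.2), if_pos h1, if_neg h2, mul_zero]
    · rw [if_neg (fun h => h1 h.1), if_neg h1, mul_zero]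
  have e2 : sB S (fun g' => wE g' * (gam k j1 j3 g' * φ g')) =
      sB BU fun M => sB IU fun P1 => sB BU fun V => sB IU fun P2 => sB BU fun Q =>
        if M ++ (P1 ++ (V ++ (P2 ++ Q))) ∈ S then (if 2 ^ j3 ≤ hgt V then
          wE (M ++ (P1 ++ (V ++ (P2 ++ Q)))) * (m M P1 V P2 * φ (M ++ (P1 ++ (V ++ (P2 ++ Q))))) else 0) else 0 := by
    rw [sB_congr fun g' _ => e1 g', sB_swap]
    refine sB_congr fun M _ => ?_
    rw [sB_swap]
    refine sB_congr fun P1 _ => ?_
    rw [sB_swap]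
    refine sB_congr fun V _ => ?_
    rw [sB_swap]
    refine sB_congr fun P2 _ => ?_
    rw [sB_swap]
    refine sB_congr fun Q _ => ?_
    have h := sB_single S (M ++ (P1 ++ (V ++ (P2 ++ Q)))) (fun _ => if 2 ^ j3 ≤ hgt V then
          wE (M ++ (P1 ++ (V ++ (P2 ++ Q)))) * (m M P1 V P2 * φ (M ++ (P1 ++ (V ++ (P2 ++ Q))))) else 0)
    convert h using 2
  rw [← hS]
  have e3 : sB S (fun g' => wE g' * (gam k j1 j3 g' * (if f g' / w = B then F g' else 0))) =
      sB S (fun g' => wE g' * (gam k j1 j3 g' * φ g')) := by rw [hφ]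
  rw [e3, e2]
  unfold opU
  rw [← sB_mul]
  refine sB_mono le_rfl fun M hM => ?_
  rw [← sB_mul]
  refine sB_mono le_rfl fun P1 hP1 => ?_
  rw [← ENNReal.tsum_mul_left]
  refine (sB_BU_le _).trans (ENNReal.tsum_le_tsum fun h => ?_)
  rw [sB_swap, ← sB_mul]
  refine sB_mono le_rfl fun P2 hP2 => ?_
  rw [sB_swap, ← sB_mul]
  refine sB_mono le_rfl fun Q hQ => ?_
  by_cases hc : 2 ^ j3 ≤ h ∧ ∃ V ∈ Brd h, M ++ (P1 ++ (V ++ (P2 ++ Q))) ∈ BrR D N ∧
      R g (M ++ (P1 ++ (V ++ (P2 ++ Q))))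
  · rw [if_pos hc]
    obtain ⟨hj3, _⟩ := hc
    obtain ⟨c, hc⟩ : ∃ c : ℝ≥0∞, c = mu j1 (hgt M) (hgt P1) * mu k (hgt M + hgt P1 + h) (hgt P2) := ⟨_, rfl⟩
    obtain ⟨x, hx⟩ := hshift M hM P1 hP1 h P2 hP2 Q hQ
    obtain ⟨d, hd⟩ : ∃ d : ℝ≥0∞, d = c * (wE M * (wE P1 * (wE P2 * (wE Q * hat D F (P2 ++ Q))))) := ⟨_, rfl⟩
    have h1 : sB (Brd h) (fun V => if M ++ (P1 ++ (V ++ (P2 ++ Q))) ∈ S then (if 2 ^ j3 ≤ hgt V then
          wE (M ++ (P1 ++ (V ++ (P2 ++ Q)))) * (m M P1 V P2 * φ (M ++ (P1 ++ (V ++ (P2 ++ Q))))) else 0) else 0) ≤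
        sB (Brd h) (fun V => if (x + σ * latE V) / w = B then d * wE V else 0) := by
      refine sB_mono le_rfl fun V hV => ?_
      by_cases hSV : M ++ (P1 ++ (V ++ (P2 ++ Q))) ∈ S
      swap
      · rw [if_neg hSV]
        exact zero_le
      rw [if_pos hSV]
      have hhV := hgt_eq hV
      rw [hhV, if_pos hj3]
      have hSV' := hSV
      rw [hS] at hSV'
      rw [hm]
      simp only
      rw [hhV, ← hc]
      by_cases hc0 : c = 0
      · rw [hc0]
        simp
      have hlt : hgt M + hgt P1 + h < 2 ^ (k + 1) := by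
        apply (mu_ne (n := hgt M + hgt P1 + h) (r := hgt P2) _).1
        intro h0
        rw [h0, mul_zero] at hc
        exact hc0 hc
      have hfx := hx V hV hlt (BrR_HB hSV'.1)
      rw [hφ]
      simp only
      rw [hfx]
      split_ifs with hB
      · have hF : F (M ++ (P1 ++ (V ++ (P2 ++ Q)))) ≤ hat D F (P2 ++ Q) := by
          have he : M ++ (P1 ++ (V ++ (P2 ++ Q))) = (M ++ (P1 ++ V)) ++ (P2 ++ Q) := by
            simp only [List.append_assoc]
          have h2 : (M ++ (P1 ++ V)) ++ (P2 ++ Q) ∈ HB D := by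
            rw [← he]
            exact BrR_HB hSV'.1
          have h3 : M ++ (P1 ++ V) ∈ BU := by
            obtain ⟨nM, hnM⟩ := hM
            obtain ⟨nP, hnP⟩ := hP1
            exact ⟨_, Brd_append hnM (Brd_append hnP.1 hV)⟩
          rw [he]
          exact le_iSup (fun Z : {Z : List Bool // Z ∈ BU ∧ Z ++ (P2 ++ Q) ∈ HB D} => F (Z.1 ++ (P2 ++ Q)))
            ⟨M ++ (P1 ++ V), h3, h2⟩
        rw [wE_append, wE_append, wE_append, wE_append, hd]
        calc wE M * (wE P1 * (wE V * (wE P2 * wE Q))) * (c * F (M ++ (P1 ++ (V ++ (P2 ++ Q))))) ≤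
            wE M * (wE P1 * (wE V * (wE P2 * wE Q))) * (c * hat D F (P2 ++ Q)) := by gcongr
          _ = _ := by ring
      · rw [mul_zero, mul_zero]
    refine h1.trans ?_
    rw [sB_ite, sB_mul]
    have h2 := hblk h j3 σ x B w hj3 hw hσ
    calc d * sB {t | t ∈ Brd h ∧ (x + σ * latE t) / w = B} wE ≤
        d * (ENNReal.ofReal (C * w / 2 ^ j3) * gf (Brd h)) := by
          gcongr
          exact h2
      _ = _ := by
          rw [hd, hc]
          ring
  · rw [if_neg hc, mul_zero]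
    apply le_of_eq
    refine Eq.trans (sB_congr (G := fun _ => 0) fun V hV => ?_) (sB_zero (Brd h))
    by_cases hSV : M ++ (P1 ++ (V ++ (P2 ++ Q))) ∈ S
    · rw [if_pos hSV, if_neg]
      intro h3
      rw [hgt_eq hV] at h3
      rw [hS] at hSV
      exact hc ⟨h3, V, hV, hSV⟩
    · rw [if_neg hSV]

open Classical in
/-- PAIR STEP -/
theorem pair_step : ∃ C : ℝ, 0 < C ∧ ∀ (D N k j1 j3 : ℕ) (R : List Bool → List Bool → Prop) (p : List Bool → ℤ)
    (q : List Bool → List Bool → ℤ), Shift D k p → (∀ g', Shift D k (q g')) →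
    ∀ (F : List Bool → ℝ≥0∞) (H : List Bool → List Bool → ℝ≥0∞) (w : ℕ) (G : Finset (ℤ × ℤ)) (g : List Bool), 1 ≤ w →
    (∀ g' g'', H g' g'' ≤ F g'') →
    sB {g' | g' ∈ BrR D N ∧ R g g'} (fun g' => wE g' * sB {g'' | g'' ∈ BrR D N ∧ R g' g''} (fun g'' => wE g'' *
      (if (p g' / w, q g' g'' / w) ∈ G then H g' g'' else 0))) ≤
    opB D N k j1 j3 R (opA D N R F) g + opA D N R (opB D N k j1 j3 R F) g +
      ENNReal.ofReal (G.card * (C * w / 2 ^ j3) ^ 2) * opU D N k j1 j3 R (opU D N k j1 j3 R F) g := by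
  obtain ⟨C, hC, hd⟩ := density
  refine ⟨C, hC, fun D N k j1 j3 R p q hp hq F H w G g hw hH => ?_⟩
  obtain ⟨c, hc⟩ : ∃ c : ℝ≥0∞, c = ENNReal.ofReal (C * w / 2 ^ j3) := ⟨_, rfl⟩
  obtain ⟨g1, hg1⟩ : ∃ g1 : List Bool → ℝ≥0∞, g1 = fun g' => min 1 (gam k j1 j3 g') := ⟨_, rfl⟩
  have hg1a : ∀ g', g1 g' ≤ 1 := fun g' => by rw [hg1]; exact min_le_left _ _
  have hg1b : ∀ g', g1 g' ≤ gam k j1 j3 g' := fun g' => by rw [hg1]; exact min_le_right _ _
  have hone : ∀ g', 1 ≤ bet k j1 j3 g' + g1 g' := by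
    intro g'
    rw [hg1]
    simp only
    unfold bet
    rcases le_total (gam k j1 j3 g') 1 with h | h
    · rw [min_eq_right h, tsub_add_cancel_of_le h]
    · rw [min_eq_left h]
      exact le_add_self
  have hsplit : ∀ (g' : List Bool) (a : ℝ≥0∞), a ≤ bet k j1 j3 g' * a + g1 g' * a := by
    intro g' a
    rw [← add_mul]
    calc a = 1 * a := (one_mul a).symm
      _ ≤ _ := mul_le_mul_left (hone g') a
  obtain ⟨X, hX⟩ : ∃ X : List Bool → List Bool → ℝ≥0∞, X = fun g' g'' =>
    if (p g' / w, q g' g'' / w) ∈ G then H g' g'' else 0 := ⟨_, rfl⟩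
  obtain ⟨X', hX'⟩ : ∃ X' : List Bool → List Bool → ℝ≥0∞, X' = fun g' g'' =>
    if (p g' / w, q g' g'' / w) ∈ G then F g'' else 0 := ⟨_, rfl⟩
  have hXX' : ∀ g' g'', X g' g'' ≤ X' g' g'' := by
    intro g' g''
    rw [hX, hX']
    simp only
    split_ifs
    · exact hH g' g''
    · exact le_rfl
  have hX'F : ∀ g' g'', X' g' g'' ≤ F g'' := by
    intro g' g''
    rw [hX']
    simp only
    split_ifs
    · exact le_rfl
    · exact zero_le
  obtain ⟨S, hS⟩ : ∃ S : List Bool → Set (List Bool), S = fun g => {g' | g' ∈ BrR D N ∧ R g g'} := ⟨_, rfl⟩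
  -- the last part for a fixed leaf g'
  have hZ : ∀ g', sB (S g') (fun g'' => wE g'' * (gam k j1 j3 g'' * X' g' g'')) ≤
      ∑ e ∈ G, (if p g' / w = e.1 then c * opU D N k j1 j3 R F g' else 0) := by
    intro g'
    have h1 : ∀ g'', X' g' g'' ≤ ∑ e ∈ G, (if p g' / w = e.1 then (if q g' g'' / w = e.2 then F g'' else 0) else 0) := by
      intro g''
      rw [hX']
      simp only
      split_ifs with h
      · refine le_trans ?_ (Finset.single_le_sum (f := fun e : ℤ × ℤ =>
          (if p g' / w = e.1 then (if q g' g'' / w = e.2 then F g'' else 0) else 0)) (fun _ _ => zero_le) h)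
        simp
      · exact zero_le
    calc sB (S g') (fun g'' => wE g'' * (gam k j1 j3 g'' * X' g' g'')) ≤
        sB (S g') (fun g'' => ∑ e ∈ G, (if p g' / w = e.1 then
          wE g'' * (gam k j1 j3 g'' * (if q g' g'' / w = e.2 then F g'' else 0)) else 0)) := by
          refine sB_mono le_rfl fun g'' _ => ?_
          calc wE g'' * (gam k j1 j3 g'' * X' g' g'') ≤ wE g'' * (gam k j1 j3 g'' *
              ∑ e ∈ G, (if p g' / w = e.1 then (if q g' g'' / w = e.2 then F g'' else 0) else 0)) := by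
                gcongr
                exact h1 g''
            _ = _ := by
                rw [Finset.mul_sum, Finset.mul_sum]
                refine Finset.sum_congr rfl fun e _ => ?_
                split_ifs <;> simp
      _ = ∑ e ∈ G, sB (S g') (fun g'' => (if p g' / w = e.1 then
          wE g'' * (gam k j1 j3 g'' * (if q g' g'' / w = e.2 then F g'' else 0)) else 0)) := by
          exact sB_finset _ _ _
      _ ≤ _ := by
          refine Finset.sum_le_sum fun e _ => ?_
          split_ifs with h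
          · have := hd D N k j1 j3 R (q g') (hq g') F w e.2 g' hw
            rw [hc, hS]
            exact this
          · rw [sB_zero]
  -- the inner sum
  obtain ⟨Y, hY⟩ : ∃ Y : List Bool → ℝ≥0∞, Y = fun g' => sB (S g') (fun g'' => wE g'' * X g' g'') := ⟨_, rfl⟩
  have hY1 : ∀ g', Y g' ≤ opA D N R F g' := by
    intro g'
    rw [hY, hS]
    unfold opA
    refine sB_mono le_rfl fun g'' _ => ?_
    gcongr
    exact (hXX' g' g'').trans (hX'F g' g'')
  obtain ⟨Z, hZd⟩ : ∃ Z : List Bool → ℝ≥0∞, Z = fun g' =>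
    sB (S g') (fun g'' => wE g'' * (gam k j1 j3 g'' * X' g' g'')) := ⟨_, rfl⟩
  have hY2 : ∀ g', Y g' ≤ opB D N k j1 j3 R F g' + Z g' := by
    intro g'
    rw [hY, hS, hZd, hS]
    unfold opB
    simp only
    rw [← sB_add]
    refine sB_mono le_rfl fun g'' _ => ?_
    calc wE g'' * X g' g'' ≤ wE g'' * (bet k j1 j3 g'' * X g' g'' + g1 g'' * X g' g'') := by
          gcongr
          exact hsplit g'' _
      _ = wE g'' * (bet k j1 j3 g'' * X g' g'') + wE g'' * (g1 g'' * X g' g'') := by ring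
      _ ≤ _ := by
          gcongr
          · exact (hXX' g' g'').trans (hX'F g' g'')
          · exact hg1b g''
          · exact hXX' g' g''
  have hmain : sB (S g) (fun g' => wE g' * Y g') ≤
      opB D N k j1 j3 R (opA D N R F) g + opA D N R (opB D N k j1 j3 R F) g +
        sB (S g) (fun g' => wE g' * (gam k j1 j3 g' * Z g')) := by
    rw [hS]
    unfold opB opA
    simp only
    rw [← sB_add, ← sB_add]
    refine sB_mono le_rfl fun g' _ => ?_
    calc wE g' * Y g' ≤ wE g' * (bet k j1 j3 g' * Y g' + g1 g' * Y g') := by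
          gcongr
          exact hsplit g' _
      _ ≤ wE g' * (bet k j1 j3 g' * opA D N R F g' + g1 g' * (opB D N k j1 j3 R F g' + Z g')) := by
          gcongr
          · exact hY1 g'
          · exact hY2 g'
      _ = wE g' * (bet k j1 j3 g' * opA D N R F g') + wE g' * (g1 g' * opB D N k j1 j3 R F g') +
          wE g' * (g1 g' * Z g') := by ring
      _ ≤ wE g' * (bet k j1 j3 g' * opA D N R F g') + wE g' * (1 * opB D N k j1 j3 R F g') +
          wE g' * (gam k j1 j3 g' * Z g') := by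
          gcongr
          · exact hg1a g'
          · exact hg1b g'
      _ = _ := by
          rw [one_mul]
          rfl
  have hlast : sB (S g) (fun g' => wE g' * (gam k j1 j3 g' * Z g')) ≤
      ENNReal.ofReal (G.card * (C * w / 2 ^ j3) ^ 2) * opU D N k j1 j3 R (opU D N k j1 j3 R F) g := by
    calc sB (S g) (fun g' => wE g' * (gam k j1 j3 g' * Z g')) ≤
        sB (S g) (fun g' => ∑ e ∈ G, c * (wE g' * (gam k j1 j3 g' * (if p g' / w = e.1 then
          opU D N k j1 j3 R F g' else 0)))) := by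
          refine sB_mono le_rfl fun g' _ => ?_
          calc wE g' * (gam k j1 j3 g' * Z g') ≤ wE g' * (gam k j1 j3 g' *
              ∑ e ∈ G, (if p g' / w = e.1 then c * opU D N k j1 j3 R F g' else 0)) := by
                gcongr
                rw [hZd]
                exact hZ g'
            _ = _ := by
                rw [Finset.mul_sum, Finset.mul_sum]
                refine Finset.sum_congr rfl fun e _ => ?_
                split_ifs <;> ring
      _ = ∑ e ∈ G, c * sB (S g) (fun g' => wE g' * (gam k j1 j3 g' * (if p g' / w = e.1 then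
          opU D N k j1 j3 R F g' else 0))) := by
          rw [sB_finset]
          refine Finset.sum_congr rfl fun e _ => ?_
          rw [sB_mul]
      _ ≤ ∑ e ∈ G, c * (c * opU D N k j1 j3 R (opU D N k j1 j3 R F) g) := by
          refine Finset.sum_le_sum fun e _ => ?_
          gcongr
          have := hd D N k j1 j3 R p hp (opU D N k j1 j3 R F) w e.1 g hw
          rw [hc, hS]
          exact this
      _ = _ := by
          rw [Finset.sum_const, nsmul_eq_mul, ← mul_assoc, ← mul_assoc, hc, ← ENNReal.ofReal_natCast,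
            ← ENNReal.ofReal_mul (by positivity), ← ENNReal.ofReal_mul (by positivity)]
          congr 2
          ring
  have hfin : sB {g' | g' ∈ BrR D N ∧ R g g'} (fun g' => wE g' * sB {g'' | g'' ∈ BrR D N ∧ R g' g''} (fun g'' => wE g'' *
      (if (p g' / w, q g' g'' / w) ∈ G then H g' g'' else 0))) = sB (S g) (fun g' => wE g' * Y g') := by
    rw [hY, hS, hX]
  rw [hfin]
  refine hmain.trans ?_
  gcongr

end TS

end HexObs
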