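import Pool.Agent.TightS.DefsS
import Pool.Agent.PHW.Near

/-!
TIGHT, part S: elementary rules for the sums.
-/

set_option autoImplicit false

namespace HexObs

namespace TS

open Finset

open scoped ENNReal

lemma sB_mono {A B : Set (List Bool)} {F G : List Bool → ℝ≥0∞} (h : A ⊆ B) (h' : ∀ t ∈ A, F t ≤ G t) :
    sB A F ≤ sB B G := by
  unfold sB
  calc ∑' t : {t : List Bool // t ∈ A}, F t.1 ≤ ∑' t : {t : List Bool // t ∈ A}, G t.1 :=
        ENNReal.tsum_le_tsum fun t => h' t.1 t.2
    _ ≤ _ := ENNReal.tsum_mono_subtype G h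

lemma sB_congr {A : Set (List Bool)} {F G : List Bool → ℝ≥0∞} (h' : ∀ t ∈ A, F t = G t) : sB A F = sB A G := by
  unfold sB
  exact tsum_congr fun t => h' t.1 t.2

lemma sB_mul (A : Set (List Bool)) (c : ℝ≥0∞) (F : List Bool → ℝ≥0∞) : sB A (fun t => c * F t) = c * sB A F := by
  unfold sB
  exact ENNReal.tsum_mul_left

lemma sB_add (A : Set (List Bool)) (F G : List Bool → ℝ≥0∞) : sB A (fun t => F t + G t) = sB A F + sB A G := by
  unfold sB
  exact ENNReal.tsum_add

lemma sB_swap (A B : Set (List Bool)) (F : List Bool → List Bool → ℝ≥0∞) :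
    sB A (fun s => sB B (fun t => F s t)) = sB B (fun t => sB A (fun s => F s t)) := by
  unfold sB
  exact ENNReal.tsum_comm

lemma sB_tsum_swap {ι : Type} (A : Set (List Bool)) (F : List Bool → ι → ℝ≥0∞) :
    sB A (fun s => ∑' i, F s i) = ∑' i, sB A (fun s => F s i) := by
  unfold sB
  exact ENNReal.tsum_comm

lemma sB_zero (A : Set (List Bool)) : sB A (fun _ => 0) = 0 := by
  unfold sB
  exact tsum_zero

lemma gf_eq_sB (A : Set (List Bool)) : gf A = sB A wE := rfl

lemma sB_ite (A : Set (List Bool)) (Q : List Bool → Prop) [DecidablePred Q] (F : List Bool → ℝ≥0∞) :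
    sB A (fun t => if Q t then F t else 0) = sB {t | t ∈ A ∧ Q t} F := by
  classical
  unfold sB
  rw [tsum_subtype A (fun t : List Bool => if Q t then F t else 0), tsum_subtype {t | t ∈ A ∧ Q t} F]
  refine tsum_congr fun t => ?_
  by_cases h : t ∈ A
  · rw [Set.indicator_of_mem h]
    by_cases h2 : Q t
    · rw [if_pos h2, Set.indicator_of_mem (show t ∈ {t | t ∈ A ∧ Q t} from ⟨h, h2⟩)]
    · rw [if_neg h2, Set.indicator_of_notMem (fun h3 : t ∈ {t | t ∈ A ∧ Q t} => h2 h3.2)]
  · rw [Set.indicator_of_notMem h, Set.indicator_of_notMem (fun h3 : t ∈ {t | t ∈ A ∧ Q t} => h h3.1)]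

open Classical in
/-- only one term -/
lemma sB_single (A : Set (List Bool)) (c : List Bool) (F : List Bool → ℝ≥0∞) :
    sB A (fun t => if c = t then F t else 0) = if c ∈ A then F c else 0 := by
  rw [sB_ite]
  split_ifs with h
  · have : {t | t ∈ A ∧ c = t} = {c} := by
      ext t
      constructor
      · rintro ⟨_, h2⟩
        exact h2.symm
      · intro h2
        have h2' : t = c := h2
        rw [h2']
        exact ⟨h, rfl⟩
    rw [this]
    unfold sB
    exact tsum_singleton c F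
  · have : {t | t ∈ A ∧ c = t} = ∅ := by
      ext t
      constructor
      · rintro ⟨h1, h2⟩
        rw [← h2] at h1
        exact absurd h1 h
      · intro h2
        exact absurd h2 (Set.notMem_empty t)
    rw [this]
    unfold sB
    exact tsum_empty

lemma sB_BU_le (F : List Bool → ℝ≥0∞) : sB BU F ≤ ∑' h : ℕ, sB (Brd h) F := by
  have h1 : BU = ⋃ h, Brd h := by
    ext t
    rw [Set.mem_iUnion]
    exact Iff.rfl
  rw [h1]
  exact ENNReal.tsum_iUnion_le_tsum F (fun h => Brd h)

lemma hgt_eq {n : ℕ} {t : List Bool} (h : t ∈ Brd n) : hgt t = n := by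
  unfold hgt
  have h1 := (mem_Brd.1 h).2.2.2
  rw [h1]
  omega

lemma BrR_HB {D N : ℕ} {t : List Bool} (h : t ∈ BrR D N) : t ∈ HB D := by
  obtain ⟨m, h1, _, h3⟩ := h
  exact ⟨m, h1, h3⟩

lemma mu_ne {j n r : ℕ} (h : mu j n r ≠ 0) : n < 2 ^ (j + 1) ∧ 2 ^ j < n + r := by
  by_contra hc
  apply h
  unfold mu
  have : (Finset.Ico (2 ^ j) (2 ^ (j + 1))).filter (fun l => n ≤ l ∧ l < n + r) = ∅ := by
    rw [Finset.filter_eq_empty_iff]
    intro l hl
    rw [Finset.mem_Ico] at hl
    rintro ⟨h1, h2⟩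
    exact hc ⟨by omega, by omega⟩
  rw [this]
  simp

end TS

end HexObs
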