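import Pool.Agent.TightS.Recur
import Pool.Agent.Tight.LeafArcs
import Pool.Agent.Tight.Leaves
import Pool.Agent.Tight.NonCross
import Pool.Agent.Tight.Defs
import Pool.Agent.PHW.JumpV
import Pool.Agent.PHW.TopB0

/-!
TIGHT, part S, module S1: the bridges with exactly 2 n + 1 alternations in terms of chains with non-crossing block pairs.
-/

set_option autoImplicit false

namespace HexObs

namespace TS

open Finset

open scoped ENNReal

lemma div_min (p q w : ℤ) (hw : 0 < w) : min (p / w) (q / w) = min p q / w := by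
  rcases le_total p q with h | h
  · rw [min_eq_left h, min_eq_left (Int.ediv_le_ediv hw h)]
  · rw [min_eq_right h, min_eq_right (Int.ediv_le_ediv hw h)]

lemma div_max (p q w : ℤ) (hw : 0 < w) : max (p / w) (q / w) = max p q / w := by
  rcases le_total p q with h | h
  · rw [max_eq_right h, max_eq_right (Int.ediv_le_ediv hw h)]
  · rw [max_eq_left h, max_eq_left (Int.ediv_le_ediv hw h)]

/-- the block pairs of pairwise non-interlacing arcs -/
lemma nc_card (L : List (ℤ × ℤ)) (hL : L.Pairwise (fun p q => ¬ Inter p q ∧ ¬ Inter q p)) (w : ℕ) (hw : 1 ≤ w)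
    (lo : ℤ) (n : ℕ) (G : Finset (ℤ × ℤ)) (hG : ∀ e ∈ G, ∃ p ∈ L, e = (p.1 / (w : ℤ), p.2 / (w : ℤ)))
    (hI : ∀ e ∈ G, (lo ≤ e.1 ∧ e.1 ≤ lo + n) ∧ (lo ≤ e.2 ∧ e.2 ≤ lo + n)) : G.card ≤ 6 * (n + 1) := by
  classical
  have hw0 : (0 : ℤ) < w := by exact_mod_cast hw
  obtain ⟨φ, hφ⟩ : ∃ φ : ℤ → Fin (n + 1), φ = fun x => Fin.ofNat (n + 1) (x - lo).toNat := ⟨_, rfl⟩
  have hφv : ∀ x, lo ≤ x → x ≤ lo + n → ((φ x : ℕ) : ℤ) = x - lo := by
    intro x h1 h2
    rw [hφ]
    simp only [Fin.val_ofNat]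
    have h3 : (x - lo).toNat < n + 1 := by omega
    rw [Nat.mod_eq_of_lt h3, Int.toNat_of_nonneg (by omega)]
  obtain ⟨E, hE⟩ : ∃ E : Finset (Fin (n + 1) × Fin (n + 1)), E = G.image (fun e => (φ (min e.1 e.2), φ (max e.1 e.2))) :=
    ⟨_, rfl⟩
  have hlt : ∀ x y, lo ≤ x → x ≤ lo + n → lo ≤ y → y ≤ lo + n → (φ x < φ y ↔ x < y) := by
    intro x y h1 h2 h3 h4
    have e1 := hφv x h1 h2
    have e2 := hφv y h3 h4
    rw [Fin.lt_def]
    omega
  have hle : ∀ x y, lo ≤ x → x ≤ lo + n → lo ≤ y → y ≤ lo + n → (φ x ≤ φ y ↔ x ≤ y) := by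
    intro x y h1 h2 h3 h4
    have e1 := hφv x h1 h2
    have e2 := hφv y h3 h4
    rw [Fin.le_def]
    omega
  have hsym : ∀ p ∈ L, ∀ q ∈ L, ¬ Inter p q ∧ ¬ Inter q p := by
    have hs : Std.Symm (fun p q : ℤ × ℤ => ¬ Inter p q ∧ ¬ Inter q p) := ⟨fun p q h => ⟨h.2, h.1⟩⟩
    intro p hp q hq
    exact List.Pairwise.forall_of_forall (fun x _ => ⟨fun h => lt_irrefl _ h.1, fun h => lt_irrefl _ h.1⟩) hL hp hq
  have hNC : Tight.NC E := by
    refine ⟨?_, ?_⟩
    · intro p hp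
      rw [hE, Finset.mem_image] at hp
      obtain ⟨e, he, rfl⟩ := hp
      obtain ⟨⟨h1, h2⟩, h3, h4⟩ := hI e he
      refine (hle _ _ ?_ ?_ ?_ ?_).2 (min_le_max)
      · exact le_min h1 h3
      · exact (min_le_left _ _).trans h2
      · exact h1.trans (le_max_left _ _)
      · exact max_le h2 h4
    · intro p hp q hq
      rw [hE, Finset.mem_image] at hp hq
      obtain ⟨e, he, rfl⟩ := hp
      obtain ⟨f, hf, rfl⟩ := hq
      obtain ⟨⟨h1, h2⟩, h3, h4⟩ := hI e he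
      obtain ⟨⟨k1, k2⟩, k3, k4⟩ := hI f hf
      rintro ⟨a1, a2, a3⟩
      have b1 := (hlt _ _ (le_min h1 h3) ((min_le_left _ _).trans h2) (le_min k1 k3) ((min_le_left _ _).trans k2)).1 a1
      have b2 := (hlt _ _ (le_min k1 k3) ((min_le_left _ _).trans k2) (h1.trans (le_max_left _ _)) (max_le h2 h4)).1 a2
      have b3 := (hlt _ _ (h1.trans (le_max_left _ _)) (max_le h2 h4) (k1.trans (le_max_left _ _)) (max_le k2 k4)).1 a3
      obtain ⟨p, hp, rfl⟩ := hG e he
      obtain ⟨q, hq, rfl⟩ := hG f hf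
      simp only [div_min _ _ _ hw0, div_max _ _ _ hw0] at b1 b2 b3
      refine (hsym p hp q hq).1 ⟨?_, ?_, ?_⟩
      · by_contra hc
        exact absurd (Int.ediv_le_ediv hw0 (not_lt.1 hc)) (not_le.2 b1)
      · by_contra hc
        exact absurd (Int.ediv_le_ediv hw0 (not_lt.1 hc)) (not_le.2 b2)
      · by_contra hc
        exact absurd (Int.ediv_le_ediv hw0 (not_lt.1 hc)) (not_le.2 b3)
  have h3 := hNC.card_le
  have h4 : G.card ≤ (E ×ˢ (Finset.univ : Finset Bool)).card := by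
    refine Finset.card_le_card_of_injOn (fun e => ((φ (min e.1 e.2), φ (max e.1 e.2)), decide (e.1 ≤ e.2))) ?_ ?_
    · intro e he
      rw [Finset.mem_coe, Finset.mem_product]
      exact ⟨by rw [hE]; exact Finset.mem_image_of_mem _ he, Finset.mem_univ _⟩
    · intro e he f hf hef
      obtain ⟨⟨h1, h2⟩, h3, h4⟩ := hI e he
      obtain ⟨⟨k1, k2⟩, k3, k4⟩ := hI f hf
      simp only [Prod.mk.injEq] at hef
      obtain ⟨⟨m1, m2⟩, m3⟩ := hef
      have n1 := hφv _ (le_min h1 h3) ((min_le_left _ _).trans h2)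
      have n2 := hφv _ (le_min k1 k3) ((min_le_left _ _).trans k2)
      have n3 := hφv _ (h1.trans (le_max_left e.1 e.2)) (max_le h2 h4)
      have n4 := hφv _ (k1.trans (le_max_left f.1 f.2)) (max_le k2 k4)
      rw [m1] at n1
      rw [m2] at n3
      have o1 : min e.1 e.2 = min f.1 f.2 := by omega
      have o2 : max e.1 e.2 = max f.1 f.2 := by omega
      rcases le_total e.1 e.2 with hh | hh
      · have m4 : f.1 ≤ f.2 := by
          have : decide (e.1 ≤ e.2) = true := decide_eq_true hh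
          rw [this] at m3
          exact of_decide_eq_true m3.symm
        rw [min_eq_left hh, min_eq_left m4] at o1
        rw [max_eq_right hh, max_eq_right m4] at o2
        exact Prod.ext o1 o2
      · rcases le_total f.1 f.2 with hf1 | hf1
        · have m4 : e.1 ≤ e.2 := by
            have : decide (f.1 ≤ f.2) = true := decide_eq_true hf1
            rw [this] at m3
            exact of_decide_eq_true m3
          rw [min_eq_left m4, min_eq_left hf1] at o1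
          rw [max_eq_right m4, max_eq_right hf1] at o2
          exact Prod.ext o1 o2
        · rw [min_eq_right hh, min_eq_right hf1] at o1
          rw [max_eq_left hh, max_eq_left hf1] at o2
          exact Prod.ext o2 o1
  rw [Finset.card_product, Finset.card_univ, Fintype.card_bool] at h4
  omega

/-- bridges in the box with exactly 2 n + 1 alternations -/
def EX (A B Bx n T : ℕ) : Set (List Bool) := {g | g ∈ Brd T ∧ InBox g Bx ∧
  Tight.Alt (lev g) g.length (3 * A) (3 * B) (2 * n + 1) ∧ ¬ Tight.Alt (lev g) g.length (3 * A) (3 * B) (2 * n + 2)}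

/-- possible sets of block pairs -/
noncomputable def GG (Bx w : ℕ) : Finset (Finset (ℤ × ℤ)) :=
  ((Finset.Icc (-((Bx / w : ℕ) : ℤ) - 1) ((Bx / w : ℕ) : ℤ) ×ˢ Finset.Icc (-((Bx / w : ℕ) : ℤ) - 1) ((Bx / w : ℕ) : ℤ)).powerset).filter
    (fun G => G.card ≤ 6 * (2 * (Bx / w) + 2))

theorem comb_le (N A B Bx w n : ℕ) (c : ℤ) (hw : 1 ≤ w) (hAB : A < B) (hAc : (A : ℤ) ≤ c) (hcB : c < B) :
    ∑ T ∈ Finset.range (N + 1), gf (EX A B Bx n T) ≤
      ∑ G ∈ GG Bx w, ∑' gs : {gs // gs ∈ CS A B N c w G n}, wl gs.1 := by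
  classical
  have hw0 : (0 : ℤ) < w := by exact_mod_cast hw
  have hkey : ∀ T ∈ Finset.range (N + 1), ∀ g ∈ EX A B Bx n T, ∃ G ∈ GG Bx w, ∃ gs ∈ CS A B N c w G n,
      unf gs = g ∧ wE g ≤ wl gs := by
    intro T hT g hg
    rw [Finset.mem_range] at hT
    obtain ⟨hgB, hbox, hA1, hA2⟩ := hg
    have hBT : B ≤ T := by
      obtain ⟨i, _, h2, h3⟩ := hA1
      have h4 := h3 (2 * n + 1) le_rfl
      rw [if_neg (by rw [Nat.not_even_iff_odd]; exact ⟨n, rfl⟩)] at h4
      have h5 : lev g (i (2 * n + 1)) ≤ 3 * T := by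
        rcases Nat.eq_zero_or_pos (i (2 * n + 1)) with h0 | h0
        · rw [h0, lev_zero]
          positivity
        · exact ((mem_Brd.1 hgB).1 _ h0 h2).2
      omega
    obtain ⟨us, hlen, hunf, hch, hok⟩ := leaves hgB hAB hBT hA1 hA2
    have hsaw := (mem_Brd.1 hgB).2.1
    obtain ⟨hnc, hidx⟩ := arcs_nc hAc hcB hok (by rw [hunf]; exact hsaw)
    obtain ⟨G, hG⟩ : ∃ G : Finset (ℤ × ℤ), G = (arcs c 0 0 us).toFinset.image
      (fun p => (p.1 / (w : ℤ), p.2 / (w : ℤ))) := ⟨_, rfl⟩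
    have hrange : ∀ x : ℤ, |x| ≤ Bx → -((Bx / w : ℕ) : ℤ) - 1 ≤ x / w ∧ x / w ≤ ((Bx / w : ℕ) : ℤ) := by
      intro x hx
      rw [abs_le] at hx
      push_cast
      constructor
      · have h1 : -(Bx : ℤ) / w ≤ x / w := Int.ediv_le_ediv hw0 hx.1
        have h2 : -((Bx : ℤ) / w) - 1 ≤ -(Bx : ℤ) / w := by
          rw [Int.le_ediv_iff_mul_le hw0]
          have h3 := Int.mul_ediv_add_emod (Bx : ℤ) w
          have h4 := Int.emod_lt_of_pos (Bx : ℤ) hw0
          nlinarith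
        linarith
      · exact Int.ediv_le_ediv hw0 hx.2
    have hIe : ∀ e ∈ G, (-((Bx / w : ℕ) : ℤ) - 1 ≤ e.1 ∧ e.1 ≤ ((Bx / w : ℕ) : ℤ)) ∧
        (-((Bx / w : ℕ) : ℤ) - 1 ≤ e.2 ∧ e.2 ≤ ((Bx / w : ℕ) : ℤ)) := by
      intro e he
      rw [hG, Finset.mem_image] at he
      obtain ⟨p, hp, rfl⟩ := he
      rw [List.mem_toFinset] at hp
      obtain ⟨i, j, hij, hj, hpe⟩ := hidx p hp
      rw [hunf] at hpe hj
      rw [hpe]
      exact ⟨hrange _ (hbox i (by omega)), hrange _ (hbox j hj)⟩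
    have hcard : G.card ≤ 6 * (2 * (Bx / w) + 1 + 1) := by
      refine nc_card (arcs c 0 0 us) hnc w hw (-((Bx / w : ℕ) : ℤ) - 1) (2 * (Bx / w) + 1) G ?_ ?_
      · intro e he
        rw [hG, Finset.mem_image] at he
        obtain ⟨p, hp, rfl⟩ := he
        rw [List.mem_toFinset] at hp
        exact ⟨p, hp, rfl⟩
      · intro e he
        obtain ⟨⟨h1, h2⟩, h3, h4⟩ := hIe e he
        push_cast at h1 h2 h3 h4 ⊢
        refine ⟨⟨h1, by linarith⟩, h3, by linarith⟩
    refine ⟨G, ?_, us, ⟨hlen, hch, ⟨T, hBT, by omega, hok⟩, ?_⟩, hunf, ?_⟩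
    · unfold GG
      rw [Finset.mem_filter, Finset.mem_powerset]
      refine ⟨?_, hcard⟩
      intro e he
      obtain ⟨h12, h34⟩ := hIe e he
      rw [Finset.mem_product, Finset.mem_Icc, Finset.mem_Icc]
      exact ⟨h12, h34⟩
    · intro p hp
      rw [hG, Finset.mem_image]
      exact ⟨p, List.mem_toFinset.2 hp, rfl⟩
    · have h1 := wE_unf hAB hBT hok
      rw [hunf, hlen, pow_succ, ← mul_assoc] at h1
      have hx0 : ENNReal.ofReal xc ≠ 0 := (ENNReal.ofReal_pos.2 xc_pos).ne'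
      have h2 : wE g = (us.map wE).prod * ENNReal.ofReal xc ^ (2 * n) :=
        (ENNReal.mul_left_inj hx0 ENNReal.ofReal_ne_top).1 h1
      rw [h2]
      unfold wl
      have h3 : ENNReal.ofReal xc ^ (2 * n) ≤ 1 := by
        apply pow_le_one₀ zero_le
        rw [ENNReal.ofReal_le_one]
        exact B2b_xc_le_one
      calc (us.map wE).prod * ENNReal.ofReal xc ^ (2 * n) ≤ (us.map wE).prod * 1 := by gcongr
        _ = _ := mul_one _
  have hdisj : ∀ i ∈ Finset.range (N + 1), ∀ j ∈ Finset.range (N + 1), i ≠ j →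
      Disjoint (EX A B Bx n i) (EX A B Bx n j) := by
    intro i _ j _ hij
    rw [Set.disjoint_left]
    intro g hg hg'
    exact hij (Brd_height hg.1 hg'.1)
  rw [← gf_biUnion _ _ hdisj]
  have hsub : (⋃ T ∈ Finset.range (N + 1), EX A B Bx n T) ⊆
      ⋃ G ∈ GG Bx w, {g | ∃ gs ∈ CS A B N c w G n, unf gs = g ∧ wE g ≤ wl gs} := by
    intro g hg
    rw [Set.mem_iUnion₂] at hg
    obtain ⟨T, hT, hgT⟩ := hg
    obtain ⟨G, hG, h⟩ := hkey T hT g hgT
    exact Set.mem_biUnion hG h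
  refine (gf_mono hsub).trans ((JumpVaux.gf_biUnion_le _ _).trans (Finset.sum_le_sum fun G _ => ?_))
  have hch : ∀ g : {g // g ∈ {g | ∃ gs ∈ CS A B N c w G n, unf gs = g ∧ wE g ≤ wl gs}},
      ∃ gs : {gs // gs ∈ CS A B N c w G n}, unf gs.1 = g.1 ∧ wE g.1 ≤ wl gs.1 := by
    rintro ⟨g, gs, h1, h2⟩
    exact ⟨⟨gs, h1⟩, h2⟩
  choose f hf1 hf2 using hch
  unfold gf
  refine (ENNReal.tsum_le_tsum fun g => hf2 g).trans ?_
  refine ENNReal.tsum_comp_le_tsum_of_injective ?_ (fun gs : {gs // gs ∈ CS A B N c w G n} => wl gs.1)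
  intro g g' hgg
  apply Subtype.ext
  rw [← hf1 g, ← hf1 g', hgg]

end TS

end HexObs
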