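import Pool.Agent.TightS.FinalS
import Pool.Agent.PHW.Num2

/-!
TIGHT, part S: choice of the parameters.
-/

set_option autoImplicit false

namespace HexObs

namespace TS

open Finset

open scoped ENNReal

lemma UU_ratio_up (j m : ℕ) : UU (2 ^ (j + m)) ≤ 2 ^ m * UU (2 ^ j) := by
  obtain ⟨n, hn⟩ : ∃ n, 2 ^ m = n + 1 := ⟨2 ^ m - 1, by have := Nat.one_le_two_pow (n := m); omega⟩
  have h := UU_mul_le n (2 ^ j)
  rw [← hn, ← pow_add, add_comm m j] at h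
  have h2 : ((n : ℝ) + 1) = 2 ^ m := by
    have : ((2 ^ m : ℕ) : ℝ) = ((n + 1 : ℕ) : ℝ) := by rw [hn]
    push_cast at this
    linarith
  rw [h2] at h
  exact h

lemma UU_ratio_down : ∃ θ : ℝ, 0 < θ ∧ ∀ j m : ℕ, UU (2 ^ j) / UU (2 ^ (j + m)) ≤ 2 * (2 : ℝ) ^ (-(θ * m)) := by
  have hCW := Num2Aux.CW_pos
  refine ⟨1 / (6 + CW), by positivity, fun j m => ?_⟩
  have h := UU_growth (s := 2 ^ j) (T := 2 ^ (j + m)) Nat.one_le_two_pow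
    (Nat.pow_le_pow_right (by norm_num) (by omega))
  have hU := Num2Aux.UU_pos (2 ^ (j + m))
  have e1 : (((2 ^ (j + m) : ℕ) : ℝ) / ((2 ^ j : ℕ) : ℝ)) = 2 ^ m := by
    push_cast
    rw [pow_add]
    field_simp
  rw [e1] at h
  have e2 : ((2 : ℝ) ^ m) ^ (1 / (6 + CW)) = (2 : ℝ) ^ (1 / (6 + CW) * m) := by
    rw [← Real.rpow_natCast, ← Real.rpow_mul (by norm_num)]
    congr 1
    ring
  rw [e2] at h
  rw [Real.rpow_neg (by norm_num), div_le_iff₀ hU]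
  have hp : (0 : ℝ) < (2 : ℝ) ^ (1 / (6 + CW) * m) := Real.rpow_pos_of_pos (by norm_num) _
  calc UU (2 ^ j) = UU (2 ^ j) * (2 : ℝ) ^ (1 / (6 + CW) * m) * ((2 : ℝ) ^ (1 / (6 + CW) * m))⁻¹ := by
        field_simp
    _ ≤ 2 * UU (2 ^ (j + m)) * ((2 : ℝ) ^ (1 / (6 + CW) * m))⁻¹ := by gcongr
    _ = _ := by ring

lemma params (K a C : ℝ) (hK : 1 ≤ K) (ha : 0 < a) (hC : 0 < C) : ∃ s p : ℕ, 3 ≤ s ∧ ∀ (N j4 e : ℕ) (R : ℝ), 1 ≤ R →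
    1 ≤ e → R ≤ 2 ^ e → (N : ℝ) ≤ R * 2 ^ (j4 + (6 * s + 3 + p) * e) →
    2 * (K * R) ^ 2 * ((2 : ℝ) ^ (-(a * (((j4 + (6 * s + 3 + p) * e : ℕ) : ℝ) - ((j4 + (5 * s + 3 + p) * e : ℕ) : ℝ)))) +
        UU (2 ^ (j4 + (4 * s + 3 + p) * e)) / UU (2 ^ (j4 + (5 * s + 3 + p) * e))) +
      6 * (2 * (N / 2 ^ j4 : ℕ) + 2) * (C * (2 ^ j4 : ℕ) / 2 ^ (j4 + (4 * s + 3 + p) * e)) ^ 2 *
        (K * R * (UU (2 ^ (j4 + (6 * s + 3 + p) * e)) / UU (2 ^ (j4 + (5 * s + 3 + p) * e)))) ^ 2 ≤ 1 / 4 := by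
  obtain ⟨θ, hθ, hdown⟩ := UU_ratio_down
  obtain ⟨τ, hτ⟩ : ∃ τ : ℝ, τ = min a θ := ⟨_, rfl⟩
  have hτ0 : 0 < τ := by rw [hτ]; exact lt_min ha hθ
  -- p
  obtain ⟨p, hp⟩ : ∃ p : ℕ, 192 * C ^ 2 * K ^ 2 ≤ (2 : ℝ) ^ p := by
    obtain ⟨p, hp⟩ := pow_unbounded_of_one_lt (192 * C ^ 2 * K ^ 2) (by norm_num : (1 : ℝ) < 2)
    exact ⟨p, hp.le⟩
  obtain ⟨p', hp'⟩ : ∃ p' : ℕ, 192 * K ^ 2 ≤ (2 : ℝ) ^ p' := by
    obtain ⟨p, hp⟩ := pow_unbounded_of_one_lt (192 * K ^ 2) (by norm_num : (1 : ℝ) < 2)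
    exact ⟨p, hp.le⟩
  obtain ⟨s, hs⟩ := exists_nat_ge (max 3 (((2 : ℝ) + p') / τ))
  have hs3 : 3 ≤ s := by exact_mod_cast (le_max_left _ _).trans hs
  have hsτ : (2 : ℝ) + p' ≤ τ * s := by
    have := (le_max_right _ _).trans hs
    rwa [div_le_iff₀ hτ0, mul_comm] at this
  refine ⟨s, p, hs3, fun N j4 e R hR he hRe hN => ?_⟩
  have hR0 : 0 < R := by linarith
  have hK0 : 0 < K := by linarith
  have he' : (1 : ℝ) ≤ e := by exact_mod_cast he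
  obtain ⟨j3, hj3⟩ : ∃ j3, j3 = j4 + (4 * s + 3 + p) * e := ⟨_, rfl⟩
  have hj1 : j4 + (5 * s + 3 + p) * e = j3 + s * e := by rw [hj3]; ring
  have hk : j4 + (6 * s + 3 + p) * e = j3 + s * e + s * e := by rw [hj3]; ring
  rw [hk, hj1, ← hj3]
  -- first term
  have t1 : (2 : ℝ) ^ (-(a * (((j3 + s * e + s * e : ℕ) : ℝ) - ((j3 + s * e : ℕ) : ℝ)))) ≤ (2 : ℝ) ^ (-(τ * s * e)) := by
    apply Real.rpow_le_rpow_of_exponent_le (by norm_num)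
    push_cast
    have h1 : τ ≤ a := by rw [hτ]; exact min_le_left _ _
    have h2 : τ * (s * e) ≤ a * (s * e) := mul_le_mul_of_nonneg_right h1 (by positivity)
    nlinarith
  have t2 : UU (2 ^ j3) / UU (2 ^ (j3 + s * e)) ≤ 2 * (2 : ℝ) ^ (-(τ * s * e)) := by
    refine (hdown j3 (s * e)).trans ?_
    apply mul_le_mul_of_nonneg_left _ (by norm_num)
    apply Real.rpow_le_rpow_of_exponent_le (by norm_num)
    push_cast
    have h1 : τ ≤ θ := by rw [hτ]; exact min_le_right _ _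
    have h2 : τ * (s * e) ≤ θ * (s * e) := mul_le_mul_of_nonneg_right h1 (by positivity)
    nlinarith
  have t3 : (2 : ℝ) ^ (-(τ * s * e)) ≤ ((2 : ℝ) ^ (2 * e))⁻¹ * ((2 : ℝ) ^ p')⁻¹ := by
    have h1 : (2 : ℝ) ^ (-(τ * s * e)) ≤ (2 : ℝ) ^ (-((2 * e + p' : ℕ) : ℝ)) := by
      apply Real.rpow_le_rpow_of_exponent_le (by norm_num)
      push_cast
      have h2 : ((2 : ℝ) + p') * e ≤ τ * s * e := mul_le_mul_of_nonneg_right hsτ (by positivity)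
      have h3 : (p' : ℝ) * 1 ≤ p' * e := mul_le_mul_of_nonneg_left he' (by positivity)
      nlinarith
    have h5 : (2 : ℝ) ^ (-((2 * e + p' : ℕ) : ℝ)) = ((2 : ℝ) ^ (2 * e))⁻¹ * ((2 : ℝ) ^ p')⁻¹ := by
      rw [Real.rpow_neg (by norm_num), Real.rpow_natCast, pow_add, mul_inv]
    exact h1.trans (le_of_eq h5)
  have hRsq : R ^ 2 ≤ (2 : ℝ) ^ (2 * e) := by
    rw [mul_comm 2 e, pow_mul]
    exact pow_le_pow_left₀ hR0.le hRe 2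
  have first : 2 * (K * R) ^ 2 * ((2 : ℝ) ^ (-(a * (((j3 + s * e + s * e : ℕ) : ℝ) - ((j3 + s * e : ℕ) : ℝ)))) +
        UU (2 ^ j3) / UU (2 ^ (j3 + s * e))) ≤ 1 / 8 := by
    have hpe : (0 : ℝ) < 2 ^ (2 * e) := by positivity
    have hpp : (0 : ℝ) < 2 ^ p' := by positivity
    calc 2 * (K * R) ^ 2 * ((2 : ℝ) ^ (-(a * (((j3 + s * e + s * e : ℕ) : ℝ) - ((j3 + s * e : ℕ) : ℝ)))) +
        UU (2 ^ j3) / UU (2 ^ (j3 + s * e))) ≤ 2 * (K * R) ^ 2 * (3 * (((2 : ℝ) ^ (2 * e))⁻¹ * ((2 : ℝ) ^ p')⁻¹)) := by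
          apply mul_le_mul_of_nonneg_left _ (by positivity)
          linarith
      _ = 6 * K ^ 2 * R ^ 2 * ((2 : ℝ) ^ (2 * e))⁻¹ * ((2 : ℝ) ^ p')⁻¹ := by ring
      _ ≤ 6 * K ^ 2 * (2 : ℝ) ^ (2 * e) * ((2 : ℝ) ^ (2 * e))⁻¹ * ((2 : ℝ) ^ p')⁻¹ := by gcongr
      _ = 6 * K ^ 2 * ((2 : ℝ) ^ p')⁻¹ := by field_simp
      _ ≤ 1 / 8 := by
          rw [← div_eq_mul_inv, div_le_iff₀ hpp]
          nlinarith [sq_nonneg K]
  -- second term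
  have hw0 : (0 : ℝ) < (2 : ℝ) ^ j4 := by positivity
  have u1 : ((N / 2 ^ j4 : ℕ) : ℝ) ≤ R * 2 ^ ((6 * s + 3 + p) * e) := by
    refine (Nat.cast_div_le).trans ?_
    push_cast
    rw [div_le_iff₀ hw0]
    refine hN.trans (le_of_eq ?_)
    rw [pow_add]
    ring
  have hbig : (1 : ℝ) ≤ R * 2 ^ ((6 * s + 3 + p) * e) := by
    have : (1 : ℝ) ≤ 2 ^ ((6 * s + 3 + p) * e) := one_le_pow₀ (by norm_num)
    nlinarith
  have u2 : C * ((2 ^ j4 : ℕ) : ℝ) / 2 ^ j3 = C * ((2 : ℝ) ^ ((4 * s + 3 + p) * e))⁻¹ := by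
    rw [hj3, pow_add]
    push_cast
    field_simp
  have u3 : UU (2 ^ (j3 + s * e + s * e)) / UU (2 ^ (j3 + s * e)) ≤ 2 ^ (s * e) := by
    rw [div_le_iff₀ (Num2Aux.UU_pos _)]
    exact UU_ratio_up _ _
  have u3' : 0 ≤ UU (2 ^ (j3 + s * e + s * e)) / UU (2 ^ (j3 + s * e)) :=
    div_nonneg (Num2Aux.UU_pos _).le (Num2Aux.UU_pos _).le
  have hRcu : R ^ 3 ≤ (2 : ℝ) ^ (3 * e) := by
    rw [mul_comm 3 e, pow_mul]
    exact pow_le_pow_left₀ hR0.le hRe 3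
  have second : 6 * (2 * ((N / 2 ^ j4 : ℕ) : ℝ) + 2) * (C * ((2 ^ j4 : ℕ) : ℝ) / 2 ^ j3) ^ 2 *
        (K * R * (UU (2 ^ (j3 + s * e + s * e)) / UU (2 ^ (j3 + s * e)))) ^ 2 ≤ 1 / 8 := by
    rw [u2]
    calc 6 * (2 * ((N / 2 ^ j4 : ℕ) : ℝ) + 2) * (C * ((2 : ℝ) ^ ((4 * s + 3 + p) * e))⁻¹) ^ 2 *
        (K * R * (UU (2 ^ (j3 + s * e + s * e)) / UU (2 ^ (j3 + s * e)))) ^ 2 ≤
        6 * (4 * (R * 2 ^ ((6 * s + 3 + p) * e))) * (C * ((2 : ℝ) ^ ((4 * s + 3 + p) * e))⁻¹) ^ 2 *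
        (K * R * 2 ^ (s * e)) ^ 2 := by
          gcongr
          linarith
      _ = 24 * C ^ 2 * K ^ 2 * R ^ 3 * (2 ^ ((6 * s + 3 + p) * e) * (2 ^ (s * e)) ^ 2 *
          (((2 : ℝ) ^ ((4 * s + 3 + p) * e))⁻¹) ^ 2) := by ring
      _ = 24 * C ^ 2 * K ^ 2 * R ^ 3 * ((2 : ℝ) ^ ((3 + p) * e))⁻¹ := by
          congr 1
          have e1 : (2 : ℝ) ^ ((6 * s + 3 + p) * e) = (2 ^ (s * e)) ^ 6 * 2 ^ ((3 + p) * e) := by
            rw [← pow_mul, ← pow_add]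
            congr 1
            ring
          have e2 : (2 : ℝ) ^ ((4 * s + 3 + p) * e) = (2 ^ (s * e)) ^ 4 * 2 ^ ((3 + p) * e) := by
            rw [← pow_mul, ← pow_add]
            congr 1
            ring
          rw [e1, e2]
          have h1 : (2 : ℝ) ^ (s * e) ≠ 0 := by positivity
          have h2 : (2 : ℝ) ^ ((3 + p) * e) ≠ 0 := by positivity
          field_simp
      _ ≤ 24 * C ^ 2 * K ^ 2 * 2 ^ (3 * e) * ((2 : ℝ) ^ ((3 + p) * e))⁻¹ := by gcongr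
      _ = 24 * C ^ 2 * K ^ 2 * ((2 : ℝ) ^ (p * e))⁻¹ := by
          have e1 : (2 : ℝ) ^ ((3 + p) * e) = 2 ^ (3 * e) * 2 ^ (p * e) := by
            rw [← pow_add]
            congr 1
            ring
          rw [e1]
          have h1 : (2 : ℝ) ^ (3 * e) ≠ 0 := by positivity
          have h2 : (2 : ℝ) ^ (p * e) ≠ 0 := by positivity
          field_simp
      _ ≤ 1 / 8 := by
          have hle : (2 : ℝ) ^ p ≤ 2 ^ (p * e) := pow_le_pow_right₀ (by norm_num) (by nlinarith)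
          rw [← div_eq_mul_inv, div_le_iff₀ (by positivity)]
          nlinarith
  linarith

end TS

end HexObs
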