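import Pool.Agent.PHW.AntiC
import Pool.Agent.PHW.IrrDec
import Pool.Agent.PHW.Jump
import Pool.Agent.PHW.Mirror

/-!
TIGHT, part S (doc proof/TIGHT_S_h70): definitions. Exact block sums, averaging over levels.
-/

set_option autoImplicit false

namespace HexObs

namespace TS

open Finset

open scoped ENNReal

/-- all bridges -/
def BU : Set (List Bool) := {t | ∃ n, t ∈ Brd n}

/-- all irreducible bridges -/
def IU : Set (List Bool) := {t | ∃ r, t ∈ Irr r}

/-- the height of a bridge -/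
noncomputable def hgt (t : List Bool) : ℕ := (lev t t.length / 3).toNat

/-- bridges with height in [D, N] -/
def BrR (D N : ℕ) : Set (List Bool) := {t | ∃ h, D ≤ h ∧ h ≤ N ∧ t ∈ Brd h}

/-- bridges of height at least D -/
def HB (D : ℕ) : Set (List Bool) := {t | ∃ h, D ≤ h ∧ t ∈ Brd h}

/-- fraction of the levels l of the window [2^j, 2^(j+1)) in the interval [n, n + r) -/
noncomputable def mu (j n r : ℕ) : ℝ≥0∞ :=
  (((Finset.Ico (2 ^ j) (2 ^ (j + 1))).filter (fun l => n ≤ l ∧ l < n + r)).card : ℝ≥0∞) / 2 ^ j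

/-- sum over the bridges or pieces -/
noncomputable def sB (A : Set (List Bool)) (F : List Bool → ℝ≥0∞) : ℝ≥0∞ := ∑' t : {t : List Bool // t ∈ A}, F t.1

/-- largest value on the leaves that end with t -/
noncomputable def hat (D : ℕ) (F : List Bool → ℝ≥0∞) (t : List Bool) : ℝ≥0∞ :=
  ⨆ Z : {Z : List Bool // Z ∈ BU ∧ Z ++ t ∈ HB D}, F (Z.1 ++ t)

open Classical in
/-- fraction of the pairs of levels (l1, l2), l1 in the window j1, l2 in the window k, for which the pieces P1, P2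
over l1, l2 are different and the bridge V between them has height at least 2^j3 -/
noncomputable def gam (k j1 j3 : ℕ) (g : List Bool) : ℝ≥0∞ :=
  sB BU fun N => sB IU fun P1 => sB BU fun V => sB IU fun P2 => sB BU fun Q =>
    if N ++ (P1 ++ (V ++ (P2 ++ Q))) = g ∧ 2 ^ j3 ≤ hgt V then
      mu j1 (hgt N) (hgt P1) * mu k (hgt N + hgt P1 + hgt V) (hgt P2) else 0

/-- the rest -/
noncomputable def bet (k j1 j3 : ℕ) (g : List Bool) : ℝ≥0∞ := 1 - gam k j1 j3 g

/-- sum over the next leaf -/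
noncomputable def opA (D N : ℕ) (R : List Bool → List Bool → Prop) (F : List Bool → ℝ≥0∞) (g : List Bool) : ℝ≥0∞ :=
  sB {g' | g' ∈ BrR D N ∧ R g g'} fun g' => wE g' * F g'

/-- sum over the next leaf, bad part -/
noncomputable def opB (D N k j1 j3 : ℕ) (R : List Bool → List Bool → Prop) (F : List Bool → ℝ≥0∞) (g : List Bool) :
    ℝ≥0∞ :=
  sB {g' | g' ∈ BrR D N ∧ R g g'} fun g' => wE g' * (bet k j1 j3 g' * F g')

open Classical in
/-- sum over the next leaf, good part, summed over the bridge V -/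
noncomputable def opU (D N k j1 j3 : ℕ) (R : List Bool → List Bool → Prop) (F : List Bool → ℝ≥0∞) (g : List Bool) :
    ℝ≥0∞ :=
  sB BU fun M => sB IU fun P1 => ∑' h : ℕ, sB IU fun P2 => sB BU fun Q =>
    if 2 ^ j3 ≤ h ∧ ∃ V ∈ Brd h, M ++ (P1 ++ (V ++ (P2 ++ Q))) ∈ BrR D N ∧ R g (M ++ (P1 ++ (V ++ (P2 ++ Q)))) then
      mu j1 (hgt M) (hgt P1) * mu k (hgt M + hgt P1 + h) (hgt P2) *
        (wE M * (wE P1 * (gf (Brd h) * (wE P2 * (wE Q * hat D F (P2 ++ Q)))))) else 0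

/-- the position functional f is a constant plus or minus the displacement of the bridge V -/
def Shift (D k : ℕ) (f : List Bool → ℤ) : Prop := ∃ σ : ℤ, (σ = 1 ∨ σ = -1) ∧ ∀ M ∈ BU, ∀ P1 ∈ IU, ∀ h : ℕ,
  ∀ P2 ∈ IU, ∀ Q ∈ BU, ∃ x : ℤ, ∀ V ∈ Brd h, hgt M + hgt P1 + h < 2 ^ (k + 1) →
    M ++ (P1 ++ (V ++ (P2 ++ Q))) ∈ HB D → f (M ++ (P1 ++ (V ++ (P2 ++ Q)))) = x + σ * latE V

end TS

end HexObs
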