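import Pool.Agent.TightS.CombS

/-!
TIGHT, part S: the norm hypothesis (theorem normS of part S2) and its iteration.
-/

set_option autoImplicit false

namespace HexObs

namespace TS

open Finset

open scoped ENNReal

/-- the properties of the norm x for the scales k, j1, j3 -/
structure NormOK (D N k j1 j3 : ℕ) (K R a : ℝ) (x : (List Bool → ℝ≥0∞) → ℝ≥0∞) : Prop where
  mono : ∀ F G : List Bool → ℝ≥0∞, (∀ g, F g ≤ G g) → x F ≤ x G
  add : ∀ F G : List Bool → ℝ≥0∞, x (fun g => F g + G g) ≤ x F + x G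
  smul : ∀ (c : ℝ≥0∞) (F : List Bool → ℝ≥0∞), x (fun g => c * F g) ≤ c * x F
  one : x (fun _ => 1) ≤ ENNReal.ofReal K
  tot : ∀ F : List Bool → ℝ≥0∞, sB (BrR D N) (fun g => wE g * F g) ≤ ENNReal.ofReal (K * UU N) * x F
  opA : ∀ F : List Bool → ℝ≥0∞, x (opA D N LFold F) ≤ ENNReal.ofReal (K * R) * x F
  opB : ∀ F : List Bool → ℝ≥0∞, x (opB D N k j1 j3 LFold F) ≤
    ENNReal.ofReal (K * R * ((2 : ℝ) ^ (-(a * ((k : ℝ) - j1))) + UU (2 ^ j3) / UU (2 ^ j1))) * x F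
  opU : ∀ F : List Bool → ℝ≥0∞, x (opU D N k j1 j3 LFold F) ≤ ENNReal.ofReal (K * R * (UU (2 ^ k) / UU (2 ^ j1))) * x F

/-- theorem normS of part S2 (helper80) -/
def NormS : Prop := ∃ K a : ℝ, 1 ≤ K ∧ 0 < a ∧ ∀ (D N k j1 j3 : ℕ) (R : ℝ), 1 ≤ R → 2 ^ (k + 4) ≤ D →
  UU N ≤ R * UU (2 ^ k) → j1 + 3 ≤ k → j3 ≤ j1 → ∃ x : (List Bool → ℝ≥0∞) → ℝ≥0∞, NormOK D N k j1 j3 K R a x

lemma norm_FJ {D N k j1 j3 : ℕ} {K R a : ℝ} {x : (List Bool → ℝ≥0∞) → ℝ≥0∞} (h : NormOK D N k j1 j3 K R a x)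
    (κ : ℝ≥0∞) (b u : ℝ≥0∞)
    (hb : b = ENNReal.ofReal (K * R * ((2 : ℝ) ^ (-(a * ((k : ℝ) - j1))) + UU (2 ^ j3) / UU (2 ^ j1))))
    (hu : u = ENNReal.ofReal (K * R * (UU (2 ^ k) / UU (2 ^ j1)))) (j : ℕ) :
    x (FJ D N k j1 j3 κ j) ≤ (2 * ENNReal.ofReal (K * R) * b + κ * u ^ 2) ^ j * (ENNReal.ofReal (K * R) * ENNReal.ofReal K) := by
  induction j with
  | zero =>
    rw [pow_zero, one_mul]
    show x (opA D N LFold (fun _ => 1)) ≤ _
    exact (h.opA _).trans (mul_le_mul_right h.one _)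
  | succ j ih =>
    obtain ⟨F, hF⟩ : ∃ F, F = FJ D N k j1 j3 κ j := ⟨_, rfl⟩
    have h1 : x (FJ D N k j1 j3 κ (j + 1)) ≤ (2 * ENNReal.ofReal (K * R) * b + κ * u ^ 2) * x F := by
      show x (fun g => opB D N k j1 j3 LFold (opA D N LFold (FJ D N k j1 j3 κ j)) g +
        opA D N LFold (opB D N k j1 j3 LFold (FJ D N k j1 j3 κ j)) g +
        κ * opU D N k j1 j3 LFold (opU D N k j1 j3 LFold (FJ D N k j1 j3 κ j)) g) ≤ _
      rw [← hF]
      refine (h.add _ _).trans ?_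
      have e1 : x (fun g => opB D N k j1 j3 LFold (opA D N LFold F) g + opA D N LFold (opB D N k j1 j3 LFold F) g) ≤
          b * (ENNReal.ofReal (K * R) * x F) + ENNReal.ofReal (K * R) * (b * x F) := by
        refine (h.add _ _).trans (add_le_add ?_ ?_)
        · refine (h.opB _).trans ?_
          rw [← hb]
          exact mul_le_mul_right (h.opA _) _
        · refine (h.opA _).trans ?_
          refine mul_le_mul_right ?_ _
          rw [hb]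
          exact h.opB _
      have e2 : x (fun g => κ * opU D N k j1 j3 LFold (opU D N k j1 j3 LFold F) g) ≤ κ * (u * (u * x F)) := by
        refine (h.smul _ _).trans (mul_le_mul_right ?_ _)
        refine (h.opU _).trans ?_
        rw [← hu]
        refine mul_le_mul_right ?_ _
        rw [hu]
        exact h.opU _
      refine (add_le_add e1 e2).trans (le_of_eq ?_)
      ring
    refine h1.trans ?_
    obtain ⟨lam, hlam⟩ : ∃ lam : ℝ≥0∞, lam = 2 * ENNReal.ofReal (K * R) * b + κ * u ^ 2 := ⟨_, rfl⟩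
    rw [← hlam] at ih ⊢
    rw [pow_succ', mul_assoc, hF]
    exact mul_le_mul_right ih _

/-- the bound for bridges with exactly 2 j + 3 alternations -/
theorem main_bound (hN : NormS) : ∃ K a C : ℝ, 1 ≤ K ∧ 0 < a ∧ 0 < C ∧ ∀ (N A B Bx w k j1 j3 j : ℕ) (R : ℝ), 1 ≤ w → 1 ≤ R →
    A + 2 ^ (k + 4) ≤ B → UU N ≤ R * UU (2 ^ k) → j1 + 3 ≤ k → j3 ≤ j1 →
    ∑ T ∈ Finset.range (N + 1), gf (EX A B Bx (j + 1) T) ≤
      ENNReal.ofReal (2 ^ ((2 * (Bx / w) + 2) ^ 2) * (K ^ 4 * R ^ 2 * UU N) *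
        (2 * (K * R) ^ 2 * ((2 : ℝ) ^ (-(a * ((k : ℝ) - j1))) + UU (2 ^ j3) / UU (2 ^ j1)) +
          6 * (2 * (Bx / w : ℕ) + 2) * (C * w / 2 ^ j3) ^ 2 * (K * R * (UU (2 ^ k) / UU (2 ^ j1))) ^ 2) ^ j) := by
  obtain ⟨K, a, hK, ha, hN⟩ := hN
  obtain ⟨C, hC, hst⟩ := start_le
  refine ⟨K, a, C, hK, ha, hC, fun N A B Bx w k j1 j3 j R hw hR hAB hUU hj1 hj3 => ?_⟩
  obtain ⟨x, hx⟩ := hN (2 ^ (k + 4)) N k j1 j3 R hR le_rfl hUU hj1 hj3
  have h2k : (0 : ℕ) < 2 ^ k := by positivity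
  have h16 : 2 ^ (k + 4) = 16 * 2 ^ k := by ring
  have h2 : 2 ^ (k + 1) = 2 * 2 ^ k := by ring
  have hU : ∀ n, 0 < UU n := Num2Aux.UU_pos
  have hK0 : 0 < K := by linarith
  have hR0 : 0 < R := by linarith
  have hA2 : ((A : ℤ) + 2 ^ (k + 1) : ℤ) = ((A + 2 ^ (k + 1) : ℕ) : ℤ) := by push_cast; ring
  have hcomb := comb_le N A B Bx w (j + 1) ((A : ℤ) + 2 ^ (k + 1)) hw (by omega)
    (by rw [hA2]; exact_mod_cast Nat.le_add_right A _)
    (by rw [hA2]; exact_mod_cast (by omega : A + 2 ^ (k + 1) < B))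
  refine hcomb.trans ?_
  obtain ⟨β, hβ⟩ : ∃ β : ℝ, β = (2 : ℝ) ^ (-(a * ((k : ℝ) - j1))) + UU (2 ^ j3) / UU (2 ^ j1) := ⟨_, rfl⟩
  obtain ⟨v, hv⟩ : ∃ v : ℝ, v = UU (2 ^ k) / UU (2 ^ j1) := ⟨_, rfl⟩
  obtain ⟨q, hq⟩ : ∃ q : ℝ, q = 6 * (2 * (Bx / w : ℕ) + 2) * (C * w / 2 ^ j3) ^ 2 := ⟨_, rfl⟩
  have hβ0 : 0 ≤ β := by
    rw [hβ]
    have := hU (2 ^ j3)
    have := hU (2 ^ j1)
    positivity
  have hv0 : 0 ≤ v := by
    rw [hv]
    have := hU (2 ^ k)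
    have := hU (2 ^ j1)
    positivity
  have hq0 : 0 ≤ q := by
    rw [hq]
    positivity
  have hUN := (hU N).le
  rw [← hβ, ← hv, ← hq]
  have hG : ∀ G ∈ GG Bx w, ∑' gs : {gs // gs ∈ CS A B N ((A : ℤ) + 2 ^ (k + 1)) w G (j + 1)}, wl gs.1 ≤
      ENNReal.ofReal ((K ^ 4 * R ^ 2 * UU N) * (2 * (K * R) ^ 2 * β + q * (K * R * v) ^ 2) ^ j) := by
    intro G hG
    unfold GG at hG
    rw [Finset.mem_filter] at hG
    have h3 := hst (2 ^ (k + 4)) N k j1 j3 A B ((A : ℤ) + 2 ^ (k + 1)) w G hw hAB le_rfl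
      (by rw [hA2]; exact_mod_cast (by omega : A + 2 ^ (k + 1) + 2 ^ (k + 1) ≤ B)) j
    refine h3.trans ((hx.tot _).trans ?_)
    obtain ⟨κ, hκ⟩ : ∃ κ : ℝ≥0∞, κ = ENNReal.ofReal (G.card * (C * w / 2 ^ j3) ^ 2) := ⟨_, rfl⟩
    rw [← hκ]
    have hκq : κ ≤ ENNReal.ofReal q := by
      rw [hκ, hq]
      apply ENNReal.ofReal_le_ofReal
      apply mul_le_mul_of_nonneg_right _ (by positivity)
      exact_mod_cast hG.2
    have h4 := norm_FJ hx κ _ _ rfl rfl j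
    rw [← hβ, ← hv] at h4
    have h5 := (hx.opA (FJ (2 ^ (k + 4)) N k j1 j3 κ j)).trans (mul_le_mul_right h4 _)
    have h6 := mul_le_mul_right h5 (ENNReal.ofReal (K * UU N))
    refine h6.trans ?_
    have h7 : 2 * ENNReal.ofReal (K * R) * ENNReal.ofReal (K * R * β) + κ * ENNReal.ofReal (K * R * v) ^ 2 ≤
        ENNReal.ofReal (2 * (K * R) ^ 2 * β + q * (K * R * v) ^ 2) := by
      have e1 : 2 * ENNReal.ofReal (K * R) * ENNReal.ofReal (K * R * β) = ENNReal.ofReal (2 * (K * R) ^ 2 * β) := by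
        have e2 : (2 : ℝ≥0∞) = ENNReal.ofReal 2 := by simp
        rw [e2, ← ENNReal.ofReal_mul (by norm_num), ← ENNReal.ofReal_mul (by positivity)]
        congr 1
        ring
      rw [e1, ENNReal.ofReal_add (by positivity) (by positivity), ENNReal.ofReal_mul hq0,
        ENNReal.ofReal_pow (by positivity)]
      gcongr
    calc ENNReal.ofReal (K * UU N) * (ENNReal.ofReal (K * R) *
          ((2 * ENNReal.ofReal (K * R) * ENNReal.ofReal (K * R * β) + κ * ENNReal.ofReal (K * R * v) ^ 2) ^ j *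
            (ENNReal.ofReal (K * R) * ENNReal.ofReal K))) ≤
        ENNReal.ofReal (K * UU N) * (ENNReal.ofReal (K * R) *
          (ENNReal.ofReal (2 * (K * R) ^ 2 * β + q * (K * R * v) ^ 2) ^ j *
            (ENNReal.ofReal (K * R) * ENNReal.ofReal K))) := by gcongr
      _ = _ := by
          rw [← ENNReal.ofReal_pow (by positivity), ← ENNReal.ofReal_mul (by positivity),
            ← ENNReal.ofReal_mul (by positivity), ← ENNReal.ofReal_mul (by positivity),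
            ← ENNReal.ofReal_mul (by positivity)]
          congr 1
          ring
  refine (Finset.sum_le_sum hG).trans ?_
  rw [Finset.sum_const, nsmul_eq_mul]
  have hcard : ((GG Bx w).card : ℝ) ≤ 2 ^ ((2 * (Bx / w) + 2) ^ 2) := by
    have h1 : (GG Bx w).card ≤ 2 ^ ((2 * (Bx / w) + 2) ^ 2) := by
      unfold GG
      refine (Finset.card_filter_le _ _).trans ?_
      rw [Finset.card_powerset, Finset.card_product, Int.card_Icc]
      apply Nat.pow_le_pow_right (by norm_num)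
      rw [← sq]
      apply Nat.pow_le_pow_left
      omega
    exact_mod_cast h1
  rw [← ENNReal.ofReal_natCast, ← ENNReal.ofReal_mul (Nat.cast_nonneg _)]
  apply ENNReal.ofReal_le_ofReal
  rw [mul_assoc ((2 : ℝ) ^ ((2 * (Bx / w) + 2) ^ 2))]
  exact mul_le_mul_of_nonneg_right hcard (by positivity)

end TS

end HexObs
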