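import Pool.Agent.TightS.NormUse
import Pool.Agent.Tight.GoodParts

/-!
TIGHT, part S: the crossing estimate Star lev from the norm bounds.
-/

set_option autoImplicit false

namespace HexObs

namespace TS

open Finset

open scoped ENNReal

lemma gf_Brd_uu (T : ℕ) : gf (Brd T) = ENNReal.ofReal (uu T) := by
  rw [gf_Brd]
  unfold uu
  rw [ENNReal.ofReal_toReal]
  rcases Nat.eq_zero_or_pos T with h | h
  · rw [h, ← gf_Brd, Brd_zero]
    have : gf ({[]} : Set (List Bool)) = 1 := by
      unfold gf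
      rw [tsum_singleton (f := wE)]
      unfold wE
      simp
    rw [this]
    exact ENNReal.one_ne_top
  · exact BT_ne_top h

lemma UU_mul_le (n T : ℕ) : UU ((n + 1) * T) ≤ (n + 1) * UU T := by
  induction n with
  | zero =>
    rw [zero_add, one_mul, Nat.cast_zero, zero_add, one_mul]
  | succ n ih =>
    have h1 : UU ((n + 1 + 1) * T) = UU ((n + 1) * T) + ∑ t ∈ range T, uu ((n + 1) * T + 1 + t) := by
      unfold UU
      rw [show (n + 1 + 1) * T + 1 = ((n + 1) * T + 1) + T by ring, Finset.sum_range_add]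
    have h2 : ∑ t ∈ range T, uu ((n + 1) * T + 1 + t) ≤ ∑ t ∈ range T, uu t :=
      Finset.sum_le_sum fun t _ => uu_anti (by omega)
    have h3 : ∑ t ∈ range T, uu t ≤ UU T := by
      unfold UU
      rw [Finset.sum_range_succ]
      have := (uu_pos T).le
      linarith
    rw [h1]
    push_cast
    linarith

lemma UU_mono {m n : ℕ} (h : m ≤ n) : UU m ≤ UU n := by
  unfold UU
  exact Finset.sum_le_sum_of_subset_of_nonneg (Finset.range_subset_range.2 (by omega)) fun t _ _ => (uu_pos t).le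

/-- total weight -/
lemma triv1 (K T : ℕ) (hK : 1 ≤ K) (P : ℕ → Set (List Bool)) (hP : ∀ T', P T' ⊆ Brd T') :
    ∑ T' ∈ range (K * T + 1), gf (P T') ≤ ENNReal.ofReal (K * UU T) := by
  calc ∑ T' ∈ range (K * T + 1), gf (P T') ≤ ∑ T' ∈ range (K * T + 1), ENNReal.ofReal (uu T') := by
        refine Finset.sum_le_sum fun T' _ => ?_
        rw [← gf_Brd_uu]
        exact gf_mono (hP T')
    _ = ENNReal.ofReal (UU (K * T)) := by
        rw [← ENNReal.ofReal_sum_of_nonneg fun i _ => (uu_pos i).le]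
        rfl
    _ ≤ _ := by
        apply ENNReal.ofReal_le_ofReal
        obtain ⟨n, rfl⟩ : ∃ n, K = n + 1 := ⟨K - 1, by omega⟩
        have := UU_mul_le n T
        push_cast at this ⊢
        exact this

/-- too many alternations -/
lemma triv2 {N T' m : ℕ} {a b : ℤ} (hT' : T' ≤ N) (hm : (2 * N + 1) * (3 * N + 1) < m) :
    {g | g ∈ Brd T' ∧ InBox g N ∧ Tight.Alt (lev g) g.length a b m} = ∅ := by
  rw [Set.eq_empty_iff_forall_notMem]
  rintro g ⟨h1, h2, i, h3, h4, _⟩
  have h5 := length_le h1 h2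
  have h6 : ∀ k, k ≤ m → k ≤ i k := by
    intro k
    induction k with
    | zero => intro _; exact Nat.zero_le _
    | succ k ih => intro hk; have := ih (by omega); have := h3 k (by omega); omega
  have h7 := h6 m le_rfl
  have h8 : (2 * N + 1) * (3 * T' + 1) ≤ (2 * N + 1) * (3 * N + 1) := Nat.mul_le_mul_left _ (by omega)
  omega

/-- a bridge with at least m ≥ 3 alternations has exactly 2 j + 3 alternations of the rows, for some j ≥ (m - 2)/2 -/
lemma alt_exact {T' N m A B : ℕ} {a b : ℤ} (hm : 3 ≤ m) (hA : a ≤ 3 * A) (hB : (3 * B : ℤ) ≤ b) (hAB : A < B)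
    {g : List Bool} (h1 : g ∈ Brd T') (h2 : InBox g N) (h3 : Tight.Alt (lev g) g.length a b m) :
    ∃ j, (m - 2) / 2 ≤ j ∧ g ∈ EX A B N (j + 1) T' := by
  classical
  have h4 : Tight.Alt (lev g) g.length (3 * A) (3 * B) m := by
    obtain ⟨i, i1, i2, i3⟩ := h3
    refine ⟨i, i1, i2, fun k hk => ?_⟩
    have := i3 k hk
    split_ifs with he
    · rw [if_pos he] at this
      exact this.trans hA
    · rw [if_neg he] at this
      exact hB.trans this
  have hlen : ∀ r, Tight.Alt (lev g) g.length (3 * A) (3 * B) r → r ≤ g.length := by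
    rintro r ⟨i, i1, i2, _⟩
    have h6 : ∀ k, k ≤ r → k ≤ i k := by
      intro k
      induction k with
      | zero => intro _; exact Nat.zero_le _
      | succ k ih => intro hk; have := ih (by omega); have := i1 k (by omega); omega
    exact (h6 r le_rfl).trans i2
  obtain ⟨r, hr⟩ : ∃ r, r = Nat.findGreatest (fun r => Tight.Alt (lev g) g.length (3 * A) (3 * B) r) g.length := ⟨_, rfl⟩
  have hr1 : Tight.Alt (lev g) g.length (3 * A) (3 * B) r := by
    rw [hr]
    exact Nat.findGreatest_spec (P := fun r => Tight.Alt (lev g) g.length (3 * A) (3 * B) r) (hlen m h4) h4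
  have hrm : m ≤ r := by
    rw [hr]
    exact Nat.le_findGreatest (hlen m h4) h4
  have hr2 : ¬ Tight.Alt (lev g) g.length (3 * A) (3 * B) (r + 1) := by
    intro h
    have h5 := hlen _ h
    have h6 : r + 1 ≤ Nat.findGreatest (fun r => Tight.Alt (lev g) g.length (3 * A) (3 * B) r) g.length :=
      Nat.le_findGreatest h5 h
    omega
  have hBT : B ≤ T' := by
    obtain ⟨i, i1, i2, i3⟩ := h4
    have h5 := i3 1 (by omega)
    rw [if_neg (by decide)] at h5
    have h7 : i 1 ≤ g.length := by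
      have hmono : ∀ k, 1 ≤ k → k ≤ m → i 1 ≤ i k := by
        intro k hk
        induction k, hk using Nat.le_induction with
        | base => intro _; exact le_rfl
        | succ k hk ih =>
          intro hk'
          have := ih (by omega)
          have := i1 k (by omega)
          omega
      exact (hmono m (by omega) le_rfl).trans i2
    have h6 : lev g (i 1) ≤ 3 * T' := by
      rcases Nat.eq_zero_or_pos (i 1) with h0 | h0
      · rw [h0, lev_zero]
        positivity
      · exact ((mem_Brd.1 h1).1 _ h0 h7).2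
    omega
  have hodd : ¬ Even r := by
    intro he
    apply hr2
    apply Tight.Alt.extend (by exact_mod_cast (by omega : 3 * A < 3 * B)) hr1 le_rfl
    rw [if_neg (by rw [Nat.even_add_one]; exact fun h => h he)]
    have := (mem_Brd.1 h1).2.2.2
    rw [this]
    exact_mod_cast (by omega : 3 * B ≤ 3 * T')
  rw [Nat.not_even_iff_odd] at hodd
  obtain ⟨n, hn⟩ := hodd
  refine ⟨n - 1, by omega, h1, h2, ?_, ?_⟩
  · rw [show 2 * (n - 1 + 1) + 1 = r by omega]
    exact hr1
  · rw [show 2 * (n - 1 + 1) + 2 = r + 1 by omega]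
    exact hr2

/-- reduction to the chains: if the bound for exactly 2 j + 3 alternations is geometric -/
lemma sum_alt {K T m A B : ℕ} {a b : ℤ} (hm : 3 ≤ m) (hA : a ≤ 3 * A) (hB : (3 * B : ℤ) ≤ b) (hAB : A < B) (M : ℝ)
    (hM : 0 ≤ M) (h : ∀ j, ∑ T' ∈ range (K * T + 1), gf (EX A B (K * T) (j + 1) T') ≤ ENNReal.ofReal (M * (1 / 4) ^ j)) :
    ∑ T' ∈ range (K * T + 1), gf {g | g ∈ Brd T' ∧ InBox g (K * T) ∧ Tight.Alt (lev g) g.length a b m} ≤
      ENNReal.ofReal (M * (16 * (1 / 2) ^ m)) := by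
  obtain ⟨j0, hj0⟩ : ∃ j0, j0 = (m - 2) / 2 := ⟨_, rfl⟩
  have h1 : ∀ T', gf {g | g ∈ Brd T' ∧ InBox g (K * T) ∧ Tight.Alt (lev g) g.length a b m} ≤
      ∑' i : ℕ, gf (EX A B (K * T) (j0 + i + 1) T') := by
    intro T'
    refine (gf_mono ?_).trans (ENNReal.tsum_iUnion_le_tsum wE (fun i => EX A B (K * T) (j0 + i + 1) T'))
    rintro g ⟨h1, h2, h3⟩
    obtain ⟨j, hj, hg⟩ := alt_exact hm hA hB hAB h1 h2 h3
    rw [Set.mem_iUnion]
    exact ⟨j - j0, by rw [show j0 + (j - j0) + 1 = j + 1 by omega]; exact hg⟩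
  calc ∑ T' ∈ range (K * T + 1), gf {g | g ∈ Brd T' ∧ InBox g (K * T) ∧ Tight.Alt (lev g) g.length a b m} ≤
      ∑ T' ∈ range (K * T + 1), ∑' i : ℕ, gf (EX A B (K * T) (j0 + i + 1) T') := Finset.sum_le_sum fun T' _ => h1 T'
    _ = ∑' i : ℕ, ∑ T' ∈ range (K * T + 1), gf (EX A B (K * T) (j0 + i + 1) T') :=
        (Summable.tsum_finsetSum fun i _ => ENNReal.summable).symm
    _ ≤ ∑' i : ℕ, ENNReal.ofReal (M * (1 / 4) ^ j0) * (ENNReal.ofReal (1 / 4)) ^ i := by
        refine ENNReal.tsum_le_tsum fun i => ?_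
        refine (h (j0 + i)).trans (le_of_eq ?_)
        rw [← ENNReal.ofReal_pow (by norm_num), ← ENNReal.ofReal_mul (by positivity), pow_add, mul_assoc]
    _ = ENNReal.ofReal (M * (1 / 4) ^ j0) * (1 - ENNReal.ofReal (1 / 4))⁻¹ := by
        rw [ENNReal.tsum_mul_left, ENNReal.tsum_geometric]
    _ ≤ ENNReal.ofReal (M * (1 / 4) ^ j0) * ENNReal.ofReal 2 := by
        gcongr
        have e1 : 1 - ENNReal.ofReal (1 / 4) = ENNReal.ofReal (3 / 4) := by
          rw [← ENNReal.ofReal_one, ← ENNReal.ofReal_sub _ (by norm_num)]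
          norm_num
        rw [e1, ← ENNReal.ofReal_inv_of_pos (by norm_num)]
        apply ENNReal.ofReal_le_ofReal
        norm_num
    _ ≤ _ := by
        rw [← ENNReal.ofReal_mul (by positivity)]
        apply ENNReal.ofReal_le_ofReal
        have e2 : ((1 : ℝ) / 4) ^ j0 ≤ 8 * (1 / 2) ^ m := by
          have e3 : ((1 : ℝ) / 4) ^ j0 = (1 / 2) ^ (2 * j0) := by
            rw [pow_mul]
            norm_num
          have e4 : ((1 : ℝ) / 2) ^ (2 * j0) ≤ (1 / 2) ^ (m - 3) :=
            pow_le_pow_of_le_one (by norm_num) (by norm_num) (by omega)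
          have e5 : (8 : ℝ) * (1 / 2) ^ m = (1 / 2) ^ (m - 3) := by
            obtain ⟨q, rfl⟩ : ∃ q, m = q + 3 := ⟨m - 3, by omega⟩
            rw [Nat.add_sub_cancel, pow_add]
            ring
          rw [e3, e5]
          exact e4
        calc M * (1 / 4) ^ j0 * 2 ≤ M * (8 * (1 / 2) ^ m) * 2 := by gcongr
          _ = _ := by ring

end TS

end HexObs
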